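import Mathlib

/-!
# The arithmetic behind the examples
-/

namespace Pool.Agent.KAQ

lemma not_sq_plus (q : ℕ) (x y : ℚ) (h : x ^ 2 = (4 * (q + 1 : ℚ) ^ 2 + 1) * y ^ 2) : y = 0 := by
  by_contra hy
  have h1 : IsSquare ((4 * (q + 1) ^ 2 + 1 : ℕ) : ℚ) := by
    refine ⟨x / y, ?_⟩
    push_cast
    field_simp
    linarith
  rw [Rat.isSquare_natCast_iff] at h1
  obtain ⟨r, hr⟩ := h1
  have h2 : 2 * (q + 1) < r := by nlinarith
  have h3 : r < 2 * (q + 1) + 1 := by nlinarith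
  omega

lemma not_sq_minus (q : ℕ) (x y : ℚ) (h : x ^ 2 = (4 * (q + 1 : ℚ) ^ 2 - 1) * y ^ 2) : y = 0 := by
  by_contra hy
  have h0 : ((4 * (q + 1) ^ 2 - 1 : ℕ) : ℚ) = 4 * (q + 1 : ℚ) ^ 2 - 1 := by
    rw [Nat.cast_sub (Nat.one_le_iff_ne_zero.mpr (by positivity))]
    push_cast
    ring
  have h1 : IsSquare ((4 * (q + 1) ^ 2 - 1 : ℕ) : ℚ) := by
    refine ⟨x / y, ?_⟩
    rw [h0]
    field_simp
    linarith
  rw [Rat.isSquare_natCast_iff] at h1
  obtain ⟨r, hr⟩ := h1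
  have hr' : 4 * (q + 1) ^ 2 = r * r + 1 := by
    have : 1 ≤ 4 * (q + 1) ^ 2 := Nat.one_le_iff_ne_zero.mpr (by positivity)
    omega
  have h2 : r < 2 * (q + 1) := by nlinarith
  have h3 : 2 * (q + 1) < r + 1 := by
    by_contra hcon
    push Not at hcon
    nlinarith
  omega

/-- The only rational solution of the pair of equations is zero. -/
lemma no_sol (q : ℕ) (a A b B : ℚ)
    (h1 : a ^ 2 + (16 * (q + 1 : ℚ) ^ 4 - 1) * A ^ 2 =
      (4 * (q + 1 : ℚ) ^ 2 + 1) * b ^ 2 + (4 * (q + 1 : ℚ) ^ 2 - 1) * B ^ 2)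
    (h2 : a * A = b * B) : a = 0 ∧ A = 0 ∧ b = 0 ∧ B = 0 := by
  set N : ℚ := (q + 1 : ℚ) with hN
  have hNpos : 1 ≤ N := by
    rw [hN]
    have : (0 : ℚ) ≤ q := Nat.cast_nonneg q
    linarith
  have key : (a ^ 2 - (4 * N ^ 2 + 1) * b ^ 2) * (a ^ 2 - (4 * N ^ 2 - 1) * B ^ 2) = 0 := by
    have h3 : a ^ 2 * A ^ 2 = b ^ 2 * B ^ 2 := by
      rw [← mul_pow, ← mul_pow, h2]
    linear_combination (a ^ 2) * h1 - (16 * N ^ 4 - 1) * h3
  have ha : a = 0 := by
    rcases mul_eq_zero.mp key with h | h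
    · have hb : b = 0 := not_sq_plus q a b (by linear_combination h)
      rw [hb] at h
      have : a ^ 2 = 0 := by linear_combination h
      exact pow_eq_zero_iff (two_ne_zero) |>.mp this
    · have hb : B = 0 := not_sq_minus q a B (by linear_combination h)
      rw [hb] at h
      have : a ^ 2 = 0 := by linear_combination h
      exact pow_eq_zero_iff (two_ne_zero) |>.mp this
  rw [ha] at h1 h2
  have hbB : b * B = 0 := by linear_combination -h2
  have hm : 4 * N ^ 2 - 1 ≠ 0 := by nlinarith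
  have hp : 4 * N ^ 2 + 1 ≠ 0 := by positivity
  rcases mul_eq_zero.mp hbB with hb | hB
  · rw [hb] at h1
    have h3 : B ^ 2 = (4 * N ^ 2 + 1) * A ^ 2 := by
      apply mul_left_cancel₀ hm
      linear_combination -h1
    have hA : A = 0 := not_sq_plus q B A h3
    rw [hA] at h3
    have hB2 : B ^ 2 = 0 := by linear_combination h3
    exact ⟨ha, hA, hb, pow_eq_zero_iff (two_ne_zero) |>.mp hB2⟩
  · rw [hB] at h1
    have h3 : b ^ 2 = (4 * N ^ 2 - 1) * A ^ 2 := by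
      apply mul_left_cancel₀ hp
      linear_combination -h1
    have hA : A = 0 := not_sq_minus q b A h3
    rw [hA] at h3
    have hb2 : b ^ 2 = 0 := by linear_combination h3
    exact ⟨ha, hA, pow_eq_zero_iff (two_ne_zero) |>.mp hb2, hB⟩

end Pool.Agent.KAQ
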