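import Mathlib

/-!
# Strongly invertible Seifert forms (algebraic side of equivariant concordance)
-/

namespace Pool.Agent.KAQ

universe u v w

/-- A (nonsingular) strongly invertible Seifert form over the field `k`: a bilinear form `θ` on `V`
together with an involution `ρ` with `θ (ρ x) (ρ y) = θ y x`, such that both `θ` and the
intersection form `θ x y - θ y x` are nondegenerate.  For a strongly invertible knot with an
invariant Seifert surface containing a half-axis, `θ` is the Seifert form and `ρ` the action of the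
strong inversion on the first homology of the surface. -/
structure SIForm (k : Type u) [Field k] (V : Type v) [AddCommGroup V] [Module k V] where
  /-- the Seifert form -/
  θ : V →ₗ[k] V →ₗ[k] k
  /-- the strong inversion -/
  ρ : V →ₗ[k] V
  ρ_invol : ∀ x, ρ (ρ x) = x
  θ_ρ : ∀ x y, θ (ρ x) (ρ y) = θ y x
  nonsing : ∀ x, (∀ y, θ x y = 0) → x = 0
  unimod : ∀ x, (∀ y, θ x y = θ y x) → x = 0

namespace SIForm

variable {k : Type u} [Field k] {V : Type v} [AddCommGroup V] [Module k V]
  {W : Type w} [AddCommGroup W] [Module k W]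

/-- A strongly invertible Seifert form is (equivariantly) metabolic when it has a half-dimensional
subspace which is invariant under `ρ` and on which `θ` vanishes. -/
def Metabolic (S : SIForm k V) : Prop :=
  ∃ M : Submodule k V, (∀ x ∈ M, S.ρ x ∈ M) ∧ (∀ x ∈ M, ∀ y ∈ M, S.θ x y = 0) ∧
    2 * Module.finrank k M = Module.finrank k V

/-- The same condition without the strong inversion. -/
def PlainMetabolic (S : SIForm k V) : Prop :=
  ∃ M : Submodule k V, (∀ x ∈ M, ∀ y ∈ M, S.θ x y = 0) ∧
    2 * Module.finrank k M = Module.finrank k V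

/-- The bilinear form of the difference. -/
def subθ (S : SIForm k V) (S' : SIForm k W) : (V × W) →ₗ[k] (V × W) →ₗ[k] k :=
  LinearMap.mk₂ k (fun x y => S.θ x.1 y.1 - S'.θ x.2 y.2)
    (by intro x x' y; simp only [Prod.fst_add, Prod.snd_add, map_add, LinearMap.add_apply]; ring)
    (by intro c x y; simp only [Prod.smul_fst, Prod.smul_snd, map_smul, LinearMap.smul_apply,
          smul_eq_mul]; ring)
    (by intro x y y'; simp only [Prod.fst_add, Prod.snd_add, map_add]; ring)
    (by intro c x y; simp only [Prod.smul_fst, Prod.smul_snd, map_smul, smul_eq_mul]; ring)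

@[simp] lemma subθ_apply (S : SIForm k V) (S' : SIForm k W) (x y : V × W) :
    S.subθ S' x y = S.θ x.1 y.1 - S'.θ x.2 y.2 := rfl

lemma subθ_nonsing (S : SIForm k V) (S' : SIForm k W) (x : V × W)
    (h : ∀ y, S.subθ S' x y = 0) : x = 0 := by
  apply Prod.ext
  · refine S.nonsing _ fun y => ?_
    simpa using h (y, 0)
  · refine S'.nonsing _ fun y => ?_
    simpa using h (0, y)

lemma subθ_unimod (S : SIForm k V) (S' : SIForm k W) (x : V × W)
    (h : ∀ y, S.subθ S' x y = S.subθ S' y x) : x = 0 := by
  apply Prod.ext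
  · refine S.unimod _ fun y => ?_
    simpa using h (y, 0)
  · refine S'.unimod _ fun y => ?_
    simpa using h (0, y)

/-- The difference `S ⊞ (-S')` of two strongly invertible Seifert forms. -/
def sub (S : SIForm k V) (S' : SIForm k W) : SIForm k (V × W) where
  θ := S.subθ S'
  ρ := S.ρ.prodMap S'.ρ
  ρ_invol x := by simp [S.ρ_invol, S'.ρ_invol]
  θ_ρ x y := by simp [S.θ_ρ, S'.θ_ρ]
  nonsing := S.subθ_nonsing S'
  unimod := S.subθ_unimod S'

/-- The Seifert form of `c` parallel copies of a Seifert surface: the form of the `(c,1)`-cable. -/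
def cableθ (S : SIForm k V) (c : ℕ) : (Fin c → V) →ₗ[k] (Fin c → V) →ₗ[k] k :=
  LinearMap.mk₂ k (fun x y => ∑ i, ∑ j, if i ≤ j then S.θ (x i) (y j) else S.θ (y j) (x i))
    (by
      intro x x' y
      simp only [← Finset.sum_add_distrib]
      refine Finset.sum_congr rfl fun i _ => Finset.sum_congr rfl fun j _ => ?_
      split_ifs <;> simp)
    (by
      intro c x y
      simp only [Finset.smul_sum]
      refine Finset.sum_congr rfl fun i _ => Finset.sum_congr rfl fun j _ => ?_
      split_ifs <;> simp)
    (by
      intro x y y'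
      simp only [← Finset.sum_add_distrib]
      refine Finset.sum_congr rfl fun i _ => Finset.sum_congr rfl fun j _ => ?_
      split_ifs <;> simp)
    (by
      intro c x y
      simp only [Finset.smul_sum]
      refine Finset.sum_congr rfl fun i _ => Finset.sum_congr rfl fun j _ => ?_
      split_ifs <;> simp)

lemma cableθ_apply (S : SIForm k V) (c : ℕ) (x y : Fin c → V) :
    S.cableθ c x y = ∑ i, ∑ j, if i ≤ j then S.θ (x i) (y j) else S.θ (y j) (x i) := rfl

/-- The strong inversion of the cable: it reverses the order of the parallel copies. -/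
def cableρ (S : SIForm k V) (c : ℕ) : (Fin c → V) →ₗ[k] (Fin c → V) :=
  LinearMap.pi fun i => S.ρ ∘ₗ LinearMap.proj i.rev

@[simp] lemma cableρ_apply (S : SIForm k V) (c : ℕ) (x : Fin c → V) (i : Fin c) :
    S.cableρ c x i = S.ρ (x i.rev) := rfl

lemma cableρ_invol (S : SIForm k V) (c : ℕ) (x : Fin c → V) :
    S.cableρ c (S.cableρ c x) = x := by
  funext i
  simp [S.ρ_invol]

lemma cableθ_ρ (S : SIForm k V) (c : ℕ) (x y : Fin c → V) :
    S.cableθ c (S.cableρ c x) (S.cableρ c y) = S.cableθ c y x := by
  rw [cableθ_apply, cableθ_apply]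
  simp only [cableρ_apply, S.θ_ρ]
  rw [← Equiv.sum_comp Fin.revPerm (fun i : Fin c => ∑ j, _)]
  conv_lhs =>
    enter [2, i]
    rw [← Equiv.sum_comp Fin.revPerm]
  rw [Finset.sum_comm]
  refine Finset.sum_congr rfl fun j _ => Finset.sum_congr rfl fun i _ => ?_
  simp only [Fin.revPerm_apply, Fin.rev_rev, Fin.rev_le_rev]

lemma cableθ_single (S : SIForm k V) (c : ℕ) (x : Fin c → V) (j : Fin c) (y : V) :
    S.cableθ c x (Pi.single j y) = ∑ i, if i ≤ j then S.θ (x i) y else S.θ y (x i) := by
  rw [cableθ_apply]
  refine Finset.sum_congr rfl fun i _ => ?_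
  rw [Finset.sum_eq_single j]
  · simp
  · intro b _ hb
    simp [Pi.single_eq_of_ne hb]
  · simp

lemma cableθ_sub_flip (S : SIForm k V) (c : ℕ) (x y : Fin c → V) :
    S.cableθ c x y - S.cableθ c y x = ∑ i, (S.θ (x i) (y i) - S.θ (y i) (x i)) := by
  rw [cableθ_apply, cableθ_apply, Finset.sum_comm (f := fun i j => if i ≤ j then S.θ (y i) (x j)
    else S.θ (x j) (y i)), ← Finset.sum_sub_distrib]
  refine Finset.sum_congr rfl fun i _ => ?_
  rw [← Finset.sum_sub_distrib, Finset.sum_eq_single i]
  · simp
  · intro j _ hj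
    rcases lt_or_gt_of_ne hj with h | h
    · simp [not_le.mpr h, h.le]
    · simp [not_le.mpr h, h.le]
  · simp

lemma cableθ_unimod (S : SIForm k V) (c : ℕ) (x : Fin c → V)
    (h : ∀ y, S.cableθ c x y = S.cableθ c y x) : x = 0 := by
  funext j
  refine S.unimod _ fun y => ?_
  have h1 := S.cableθ_sub_flip c x (Pi.single j y)
  rw [h, sub_self, Finset.sum_eq_single j] at h1
  · simpa using (sub_eq_zero.mp h1.symm)
  · intro b _ hb
    simp [Pi.single_eq_of_ne hb]
  · simp

lemma cableθ_nonsing (S : SIForm k V) (c : ℕ) (x : Fin c → V)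
    (h : ∀ y, S.cableθ c x y = 0) : x = 0 := by
  have key : ∀ j : Fin c, ∀ y : V, (∑ i, if i ≤ j then S.θ (x i) y else S.θ y (x i)) = 0 := by
    intro j y
    rw [← S.cableθ_single]
    exact h _
  have hpos : ∀ j : Fin c, 0 < j.val → x j = 0 := by
    intro j hj
    refine S.unimod _ fun y => ?_
    have hj' : j.val - 1 < c := by omega
    have h1 := key j y
    have h2 := key ⟨j.val - 1, hj'⟩ y
    have h3 : (∑ i, ((if i ≤ j then S.θ (x i) y else S.θ y (x i)) -
        (if i ≤ (⟨j.val - 1, hj'⟩ : Fin c) then S.θ (x i) y else S.θ y (x i)))) = 0 := by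
      rw [Finset.sum_sub_distrib, h1, h2, sub_zero]
    rw [Finset.sum_eq_single j] at h3
    · rw [if_pos le_rfl, if_neg] at h3
      · exact sub_eq_zero.mp h3
      · simp only [Fin.le_def, not_le]
        omega
    · intro b _ hb
      have hb' : b.val ≠ j.val := fun h => hb (Fin.ext h)
      by_cases hbj : b ≤ j
      · rw [if_pos hbj, if_pos, sub_self]
        rw [Fin.le_def] at hbj ⊢
        simp only
        omega
      · rw [if_neg hbj, if_neg, sub_self]
        rw [Fin.le_def] at hbj ⊢
        simp only
        omega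
    · simp
  funext j
  by_cases hj : 0 < j.val
  · exact hpos j hj
  · have hc : 0 < c := lt_of_le_of_lt (Nat.zero_le _) j.isLt
    have hj0 : j = ⟨0, hc⟩ := Fin.ext (by simp; omega)
    subst hj0
    refine S.nonsing _ fun y => ?_
    have h1 := key ⟨0, hc⟩ y
    rw [Finset.sum_eq_single ⟨0, hc⟩] at h1
    · simpa using h1
    · intro b _ hb
      have hb' : 0 < b.val := by
        rcases Nat.eq_zero_or_pos b.val with h0 | h0
        · exact absurd (Fin.ext h0) hb
        · exact h0
      rw [hpos b hb']
      simp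
    · simp

/-- The strongly invertible Seifert form of the `(c,1)`-cable of `S` (`c` parallel copies of the
invariant Seifert surface, whose order is reversed by the strong inversion). -/
def cable (S : SIForm k V) (c : ℕ) : SIForm k (Fin c → V) where
  θ := S.cableθ c
  ρ := S.cableρ c
  ρ_invol := S.cableρ_invol c
  θ_ρ := S.cableθ_ρ c
  nonsing := S.cableθ_nonsing c
  unimod := S.cableθ_unimod c

/-- A Klein amphichiral structure on a strongly invertible Seifert form.  For a Klein amphichiral
knot `(K, ρ, τ)`, a lift `α` of `τ` acts on the rational Alexander module; its square is the deck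
transformation `t`, which is the isometry of `θ` with `θ (t x) y = θ y x`, it changes the sign of
the form, and `ρ α ρ = α⁻¹`. -/
def Klein (S : SIForm k V) : Prop :=
  ∃ α : V ≃ₗ[k] V, (∀ x y, S.θ (α x) (α y) = - S.θ x y) ∧
    (∀ x y, S.θ (α (α x)) y = S.θ y x) ∧ ∀ x, S.ρ (α x) = α.symm (S.ρ x)

/-- `S` is equivariantly algebraically concordant (Witt equivalent) to a form with a Klein
amphichiral structure. -/
def KleinClass (S : SIForm k V) : Prop :=
  ∃ (V' : Type v) (_ : AddCommGroup V') (_ : Module k V') (_ : FiniteDimensional k V')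
    (S' : SIForm k V'), S'.Klein ∧ (S.sub S').Metabolic

end SIForm

end Pool.Agent.KAQ
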