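import Pool.Agent.KAQ.Lin

/-!
# Functoriality of the cable forms
-/

namespace Pool.Agent.KAQ

universe u v w

namespace SIForm

set_option linter.unusedSectionVars false

variable {k : Type u} [Field k] {V : Type v} [AddCommGroup V] [Module k V]
  {W : Type w} [AddCommGroup W] [Module k W] [FiniteDimensional k V] [FiniteDimensional k W]

lemma finrank_fun (c : ℕ) : Module.finrank k (Fin c → V) = c * Module.finrank k V := by
  rw [Module.finrank_pi_fintype]
  simp

/-- The inclusion of functions with values in a submodule. -/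
def incl (M : Submodule k V) (c : ℕ) : (Fin c → M) →ₗ[k] (Fin c → V) :=
  LinearMap.pi fun i => M.subtype ∘ₗ LinearMap.proj i

lemma incl_inj (M : Submodule k V) (c : ℕ) : Function.Injective (incl M c) := by
  intro x y h
  funext i
  exact Subtype.ext (congrFun h i)

lemma Metabolic.cable {S : SIForm k V} (h : S.Metabolic) (c : ℕ) : (S.cable c).Metabolic := by
  obtain ⟨M, h1, h2, h3⟩ := h
  refine ⟨LinearMap.range (incl M c), ?_, ?_, ?_⟩
  · rintro _ ⟨x, rfl⟩
    refine ⟨fun i => ⟨S.ρ (x i.rev), h1 _ (x i.rev).2⟩, rfl⟩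
  · rintro _ ⟨x, rfl⟩ _ ⟨y, rfl⟩
    change S.cableθ c _ _ = 0
    rw [cableθ_apply]
    refine Finset.sum_eq_zero fun i _ => Finset.sum_eq_zero fun j _ => ?_
    split_ifs
    · exact h2 _ (x i).2 _ (y j).2
    · exact h2 _ (y j).2 _ (x i).2
  · rw [LinearMap.finrank_range_of_inj (incl_inj M c), finrank_fun, finrank_fun, ← h3]
    ring

/-- Splitting functions with values in a product. -/
def splitFun (c : ℕ) : (Fin c → V × W) ≃ₗ[k] (Fin c → V) × (Fin c → W) where
  toFun x := (fun i => (x i).1, fun i => (x i).2)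
  invFun y := fun i => (y.1 i, y.2 i)
  left_inv _ := rfl
  right_inv _ := rfl
  map_add' _ _ := rfl
  map_smul' _ _ := rfl

lemma cable_sub {S : SIForm k V} {S' : SIForm k W} (c : ℕ)
    (h : ((S.sub S').cable c).Metabolic) : ((S.cable c).sub (S'.cable c)).Metabolic := by
  refine h.of_equiv (splitFun c) ?_ ?_
  · intro x y
    change S.cableθ c _ _ - S'.cableθ c _ _ = (S.sub S').cableθ c x y
    rw [cableθ_apply, cableθ_apply, cableθ_apply, ← Finset.sum_sub_distrib]
    refine Finset.sum_congr rfl fun i _ => ?_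
    rw [← Finset.sum_sub_distrib]
    refine Finset.sum_congr rfl fun j _ => ?_
    split_ifs
    · rfl
    · rfl
  · intro x
    rfl

/-- Currying, adapted to iterated cables. -/
def curryFun (d c : ℕ) : (Fin c → Fin d → V) ≃ₗ[k] (Fin (d * c) → V) where
  toFun x := fun p => x (finProdFinEquiv.symm p).2 (finProdFinEquiv.symm p).1
  invFun y := fun i a => y (finProdFinEquiv (a, i))
  left_inv x := by
    funext i a
    simp
  right_inv y := by
    funext p
    change y (finProdFinEquiv (finProdFinEquiv.symm p)) = y p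
    rw [Equiv.apply_symm_apply]
  map_add' _ _ := rfl
  map_smul' _ _ := rfl

lemma finProd_le (d c : ℕ) (a b : Fin d) (i j : Fin c) :
    finProdFinEquiv (a, i) ≤ finProdFinEquiv (b, j) ↔ (a < b ∨ (a = b ∧ i ≤ j)) := by
  rw [Fin.le_def]
  simp only [finProdFinEquiv_apply_val]
  have hi := i.isLt
  have hj := j.isLt
  rw [Fin.lt_def, Fin.ext_iff, Fin.le_def]
  constructor
  · intro h
    rcases lt_trichotomy a.val b.val with h1 | h1 | h1
    · exact Or.inl h1
    · right
      refine ⟨h1, ?_⟩
      rw [h1] at h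
      omega
    · exfalso
      have : c * (b.val + 1) ≤ c * a.val := Nat.mul_le_mul_left c h1
      rw [mul_add] at this
      omega
  · rintro (h | ⟨h1, h2⟩)
    · have : c * (a.val + 1) ≤ c * b.val := Nat.mul_le_mul_left c h
      rw [mul_add] at this
      omega
    · rw [h1]
      omega

lemma finProd_rev (d c : ℕ) (a : Fin d) (i : Fin c) :
    (finProdFinEquiv (a, i)).rev = finProdFinEquiv (a.rev, i.rev) := by
  apply Fin.ext
  rw [Fin.val_rev]
  simp only [finProdFinEquiv_apply_val, Fin.val_rev]
  have hi := i.isLt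
  have ha := a.isLt
  obtain ⟨e, he⟩ : ∃ e, d = a.val + 1 + e := ⟨d - (a.val + 1), by omega⟩
  have h2 : d - (a.val + 1) = e := by omega
  have h3 : d * c = c * a.val + c + c * e := by
    calc d * c = (a.val + 1 + e) * c := by rw [← he]
      _ = _ := by ring
  rw [h2, h3]
  omega

lemma cable_mul_aux (S : SIForm k V) (d c : ℕ) (x y : Fin c → Fin d → V) :
    (S.cable (d * c)).θ (curryFun (k := k) d c x) (curryFun (k := k) d c y) = ((S.cable d).cable c).θ x y := by
  change S.cableθ (d * c) _ _ = (S.cable d).cableθ c x y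
  rw [cableθ_apply, cableθ_apply]
  rw [← Equiv.sum_comp finProdFinEquiv, Fintype.sum_prod_type, Finset.sum_comm]
  refine Finset.sum_congr rfl fun i _ => ?_
  have h1 : ∀ a : Fin d, (∑ q : Fin (d * c), if finProdFinEquiv (a, i) ≤ q then
      S.θ (curryFun (k := k) d c x (finProdFinEquiv (a, i))) (curryFun (k := k) d c y q)
      else S.θ (curryFun (k := k) d c y q) (curryFun (k := k) d c x (finProdFinEquiv (a, i)))) =
      ∑ j : Fin c, ∑ b : Fin d, if (a < b ∨ (a = b ∧ i ≤ j)) then S.θ (x i a) (y j b)
        else S.θ (y j b) (x i a) := by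
    intro a
    rw [← Equiv.sum_comp finProdFinEquiv, Fintype.sum_prod_type, Finset.sum_comm]
    refine Finset.sum_congr rfl fun j _ => Finset.sum_congr rfl fun b _ => ?_
    simp only [finProd_le, curryFun, LinearEquiv.coe_mk, LinearMap.coe_mk, AddHom.coe_mk,
      Equiv.symm_apply_apply]
  simp only [h1]
  rw [Finset.sum_comm]
  refine Finset.sum_congr rfl fun j _ => ?_
  by_cases hij : i ≤ j
  · rw [if_pos hij]
    change _ = S.cableθ d (x i) (y j)
    rw [cableθ_apply]
    refine Finset.sum_congr rfl fun a _ => Finset.sum_congr rfl fun b _ => ?_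
    have : (a < b ∨ (a = b ∧ i ≤ j)) ↔ a ≤ b := by
      simp only [hij, and_true]
      exact le_iff_lt_or_eq.symm
    simp only [this]
  · rw [if_neg hij]
    change _ = S.cableθ d (y j) (x i)
    rw [cableθ_apply, Finset.sum_comm]
    refine Finset.sum_congr rfl fun b _ => Finset.sum_congr rfl fun a _ => ?_
    have : (a < b ∨ (a = b ∧ i ≤ j)) ↔ ¬ (b ≤ a) := by
      simp [hij]
    simp only [this]
    split_ifs <;> rfl

lemma cable_mul {S : SIForm k V} (d c : ℕ) (h : ((S.cable d).cable c).Metabolic) :
    (S.cable (d * c)).Metabolic := by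
  refine h.of_equiv (curryFun d c) (S.cable_mul_aux d c) ?_
  intro x
  funext p
  obtain ⟨⟨a, i⟩, rfl⟩ := finProdFinEquiv.surjective p
  change S.ρ (curryFun (k := k) d c x (finProdFinEquiv (a, i)).rev) = _
  rw [finProd_rev]
  simp only [curryFun, LinearEquiv.coe_mk, LinearMap.coe_mk, AddHom.coe_mk,
      Equiv.symm_apply_apply]
  rfl

lemma of_cable_mul {S : SIForm k V} (d c : ℕ) (h : (S.cable (d * c)).Metabolic) :
    ((S.cable d).cable c).Metabolic := by
  refine h.of_equiv (curryFun d c).symm ?_ ?_
  · intro x y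
    have := S.cable_mul_aux d c ((curryFun (k := k) d c).symm x)
      ((curryFun (k := k) d c).symm y)
    rw [LinearEquiv.apply_symm_apply, LinearEquiv.apply_symm_apply] at this
    exact this.symm
  · intro x
    funext i a
    change S.ρ (x (finProdFinEquiv (a.rev, i.rev))) = S.ρ (x (finProdFinEquiv (a, i)).rev)
    rw [finProd_rev]

/-- If the `c`-cable is metabolic then so is the `(c * d)`-cable. -/
lemma cable_mono {S : SIForm k V} (c d : ℕ) (h : (S.cable c).Metabolic) :
    (S.cable (c * d)).Metabolic :=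
  cable_mul c d (h.cable d)

end SIForm

end Pool.Agent.KAQ
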