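import Mathlib

/-!
# Dimension counts for reflexive nondegenerate forms
-/

namespace Pool.Agent.KAQ

universe u v w

variable {k : Type u} [Field k] {X : Type v} [AddCommGroup X] [Module k X]
  {Y : Type w} [AddCommGroup Y] [Module k Y]

lemma finrank_map_add (f : X →ₗ[k] Y) (A : Submodule k X) [FiniteDimensional k X] :
    Module.finrank k (A.map f) + Module.finrank k (A ⊓ LinearMap.ker f : Submodule k X) =
      Module.finrank k A := by
  have h := LinearMap.finrank_range_add_finrank_ker (f.domRestrict A)
  rw [LinearMap.range_domRestrict, LinearMap.ker_domRestrict] at h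
  rw [← h]
  congr 1
  have e : ((LinearMap.ker f).comap A.subtype).map A.subtype = A ⊓ LinearMap.ker f :=
    Submodule.map_comap_subtype _ _
  rw [← e, Submodule.finrank_map_subtype_eq]

lemma finrank_map_inj (f : X →ₗ[k] Y) (hf : Function.Injective f) (A : Submodule k X) :
    Module.finrank k (A.map f) = Module.finrank k A :=
  (LinearEquiv.finrank_eq (Submodule.equivMapOfInjective f hf A)).symm

lemma orth_sup (B : LinearMap.BilinForm k X) (N I : Submodule k X) :
    B.orthogonal (N ⊔ I) = B.orthogonal N ⊓ B.orthogonal I := by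
  ext z
  constructor
  · intro h
    exact ⟨fun m hm => h m (Submodule.mem_sup_left hm),
      fun m hm => h m (Submodule.mem_sup_right hm)⟩
  · rintro ⟨h1, h2⟩ m hm
    obtain ⟨a, ha, b, hb, rfl⟩ := Submodule.mem_sup.mp hm
    have e1 : B a z = 0 := h1 a ha
    have e2 : B b z = 0 := h2 b hb
    change B (a + b) z = 0
    rw [map_add, LinearMap.add_apply, e1, e2, add_zero]

lemma dim_red [FiniteDimensional k X] (B : LinearMap.BilinForm k X) (hB : B.Nondegenerate)
    (N I J : Submodule k X) (hN : B.orthogonal N = N) (hI : B.orthogonal I = J) :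
    Module.finrank k (N ⊓ J : Submodule k X) + Module.finrank k N + Module.finrank k I =
      Module.finrank k X + Module.finrank k (N ⊓ I : Submodule k X) := by
  have h1 : N ⊓ J = B.orthogonal (N ⊔ I) := by rw [orth_sup, hN, hI]
  have h2 := LinearMap.BilinForm.finrank_orthogonal hB (N ⊔ I)
  have h3 := Submodule.finrank_sup_add_finrank_inf_eq N I
  have h4 := Submodule.finrank_le (N ⊔ I)
  rw [← h1] at h2
  omega

end Pool.Agent.KAQ
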