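import Pool.Agent.KAQ.NonKlein

/-!
# Twice an example is metabolic; the summary
-/

namespace Pool.Agent.KAQ

universe u v w

namespace SIForm

set_option linter.unusedSectionVars false

/-- The isometry for twice the example. -/
noncomputable def dmap (n δ : ℚ) : (Fin 2 → Fin 2 → ℚ) →ₗ[ℚ] (Fin 2 → Fin 2 → ℚ) :=
  LinearMap.pi fun i => if i = 0 then
    ((2 * n) • (bmap δ ∘ₗ LinearMap.proj 0) - bmap δ ∘ₗ LinearMap.proj 1)
    else (bmap δ ∘ₗ LinearMap.proj 0 + (2 * n) • (bmap δ ∘ₗ LinearMap.proj 1))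

lemma dmap_zero (n δ : ℚ) (x : Fin 2 → Fin 2 → ℚ) :
    dmap n δ x 0 = (2 * n) • bmap δ (x 0) - bmap δ (x 1) := rfl

lemma dmap_one (n δ : ℚ) (x : Fin 2 → Fin 2 → ℚ) :
    dmap n δ x 1 = bmap δ (x 0) + (2 * n) • bmap δ (x 1) := rfl

/-- Twice an example is metabolic. -/
theorem double_formF (q : ℕ) : (SIForm.pi fun _ : Fin 2 => formF q).Metabolic := by
  have h1 : ((SIForm.pi fun _ : Fin 2 => formA q).sub
      (SIForm.pi fun _ : Fin 2 => formB q)).Metabolic := by
    refine sub_of_isom (dmap (q + 1 : ℚ) (4 * (q + 1 : ℚ) ^ 2 + 1)) rfl ?_ ?_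
    · intro x y
      change piθ _ _ _ = piθ _ _ _
      rw [piθ_apply, piθ_apply, Fin.sum_univ_two, Fin.sum_univ_two, dmap_zero, dmap_zero, dmap_one,
        dmap_one, ← bmap_isom, ← bmap_isom]
      simp only [map_add, map_sub, map_smul, LinearMap.add_apply, LinearMap.sub_apply,
        LinearMap.smul_apply, smul_eq_mul]
      ring
    · intro x
      funext i
      have e : ∀ y : Fin 2 → ℚ, swapρ (bmap (4 * (q + 1 : ℚ) ^ 2 + 1) y) =
        bmap (4 * (q + 1 : ℚ) ^ 2 + 1) (swapρ y) := bmap_swap _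
      fin_cases i
      · change swapρ (dmap _ _ x 0) = dmap _ _ _ 0
        rw [dmap_zero, dmap_zero, map_sub, map_smul, e, e]
        rfl
      · change swapρ (dmap _ _ x 1) = dmap _ _ _ 1
        rw [dmap_one, dmap_one, map_add, map_smul, e, e]
        rfl
  refine h1.of_equiv (splitFun (k := ℚ) 2).symm ?_ ?_
  · intro x y
    change (piθ (fun _ : Fin 2 => formF q)) _ _ =
      (piθ (fun _ : Fin 2 => formA q)) _ _ - (piθ (fun _ : Fin 2 => formB q)) _ _
    rw [piθ_apply, piθ_apply, piθ_apply, ← Finset.sum_sub_distrib]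
    rfl
  · intro x
    rfl

/-- The examples: cables of every order divisible by four. -/
theorem family_cable (m : ℕ) (κ : Fin m → ℕ) (c : ℕ) (hc : 4 ∣ c) :
    ((SIForm.pi fun i => formF (κ i)).cable c).Metabolic := by
  obtain ⟨d, rfl⟩ := hc
  exact cable_mono 4 d (pi_cable_metabolic 4 fun i => formF_cable_four (κ i))

theorem family_plain (m : ℕ) (κ : Fin m → ℕ) :
    ((SIForm.pi fun i => formF (κ i)).cable 2).PlainMetabolic :=
  pi_cable_plain 2 fun i => formF_cable_two_plain (κ i)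

theorem family_not_klein (m : ℕ) (κ : Fin (m + 1) → ℕ) (hκ : Function.Injective κ) :
    ¬ (SIForm.pi fun i => formF (κ i)).KleinClass := fun h =>
  not_cable_two_family m κ hκ h.cable_two

end SIForm

end Pool.Agent.KAQ
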