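import Pool.Agent.KAQ.Sums

/-!
# The genus one examples: metabolic 4-cables
-/

namespace Pool.Agent.KAQ

universe u v w

namespace SIForm

set_option linter.unusedSectionVars false

section general

variable {k : Type u} [Field k] {V : Type v} [AddCommGroup V] [Module k V] [FiniteDimensional k V]

lemma θ_t_symm (S : SIForm k V) (x y : V) : S.θ (S.t x) y = S.θ x (S.t.symm y) := by
  conv_lhs => rw [← S.t.apply_symm_apply y]
  exact S.t_isom x _

lemma θ_symm_t (S : SIForm k V) (x y : V) : S.θ (S.t.symm x) y = S.θ x (S.t y) := by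
  have := S.t_isom (S.t.symm x) y
  rw [LinearEquiv.apply_symm_apply] at this
  exact this.symm

lemma ρ_t_eq (S : SIForm k V) (x : V) : S.ρ (S.t x) = S.t.symm (S.ρ x) := by
  rw [LinearEquiv.eq_symm_apply]
  exact S.ρ_t x

lemma ρ_symm_eq (S : SIForm k V) (x : V) : S.ρ (S.t.symm x) = S.t (S.ρ x) := by
  have := S.ρ_t_eq (S.t.symm x)
  rw [LinearEquiv.apply_symm_apply] at this
  rw [this, LinearEquiv.apply_symm_apply]

/-- `t + t⁻¹`. -/
noncomputable def sL (S : SIForm k V) : V →ₗ[k] V := S.t.toLinearMap + S.t.symm.toLinearMap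

/-- `t - t⁻¹`. -/
noncomputable def dL (S : SIForm k V) : V →ₗ[k] V := S.t.toLinearMap - S.t.symm.toLinearMap

lemma sL_apply (S : SIForm k V) (x : V) : S.sL x = S.t x + S.t.symm x := rfl

lemma dL_apply (S : SIForm k V) (x : V) : S.dL x = S.t x - S.t.symm x := rfl

lemma sL_adj (S : SIForm k V) (x y : V) : S.θ (S.sL x) y = S.θ x (S.sL y) := by
  rw [sL_apply, sL_apply, map_add, map_add, LinearMap.add_apply, S.θ_t_symm, S.θ_symm_t, add_comm]

lemma dL_adj (S : SIForm k V) (x y : V) : S.θ (S.dL x) y = - S.θ x (S.dL y) := by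
  rw [dL_apply, dL_apply, map_sub, map_sub, LinearMap.sub_apply, S.θ_t_symm, S.θ_symm_t]
  ring

lemma sL_ρ (S : SIForm k V) (x : V) : S.ρ (S.sL x) = S.sL (S.ρ x) := by
  rw [sL_apply, sL_apply, map_add, S.ρ_t_eq, S.ρ_symm_eq, add_comm]

lemma cable_symm_pow (S : SIForm k V) (n : ℕ) (z : Fin (n + 1) → V) :
    ((S.cable (n + 1)).t.symm^[n + 1] z) = fun i => S.t.symm (z i) := by
  have h1 := S.cable_t_pow n (fun i => S.t.symm (z i))
  have h2 : (fun i => S.t (S.t.symm (z i))) = z := by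
    funext i
    exact S.t.apply_symm_apply _
  rw [h2] at h1
  have h3 := Function.LeftInverse.iterate (S.cable (n + 1)).t.symm_apply_apply (n + 1)
    (fun i => S.t.symm (z i))
  rw [h1] at h3
  exact h3

end general

/-! ### Scaling isometries -/

section scale

variable {V : Type v} [AddCommGroup V] [Module ℚ V] [FiniteDimensional ℚ V]

/-- The square root of `4 n² + 1` in the 4-cable. -/
noncomputable def σL (A : SIForm ℚ V) (n : ℚ) : V →ₗ[ℚ] V :=
  (n • ((1 + 8 * n ^ 2) • LinearMap.id - (2 * n ^ 2) • (A.sL ∘ₗ A.sL))) ∘ₗ A.sL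

lemma σL_apply (A : SIForm ℚ V) (n : ℚ) (x : V) :
    A.σL n x = n • ((1 + 8 * n ^ 2) • A.sL x - (2 * n ^ 2) • A.sL (A.sL (A.sL x))) := rfl

lemma σL_adj (A : SIForm ℚ V) (n : ℚ) (x y : V) : A.θ (A.σL n x) y = A.θ x (A.σL n y) := by
  rw [σL_apply, σL_apply]
  simp only [map_smul, map_sub, LinearMap.smul_apply, LinearMap.sub_apply, sL_adj]

lemma σL_ρ (A : SIForm ℚ V) (n : ℚ) (x : V) : A.ρ (A.σL n x) = A.σL n (A.ρ x) := by
  rw [σL_apply, σL_apply]
  simp only [map_smul, map_sub, sL_ρ]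

lemma σL_sq (A : SIForm ℚ V) (n : ℚ) (hn : n ≠ 0)
    (h : ∀ x, A.sL (A.sL (A.sL (A.sL x))) = (4 : ℚ) • A.sL (A.sL x) - (1 / (4 * n ^ 4)) • x)
    (x : V) : A.σL n (A.σL n x) = (4 * n ^ 2 + 1) • x := by
  rw [σL_apply, σL_apply]
  simp only [map_smul, map_sub, h]
  match_scalars <;> field_simp <;> ring

end scale

end SIForm

end Pool.Agent.KAQ
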