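import Pool.Agent.KAQ.Ex

/-!
# The genus one examples: explicit isometries
-/

namespace Pool.Agent.KAQ

namespace SIForm

set_option linter.unusedSectionVars false

lemma two_sL_sq {V : Type} [AddCommGroup V] [Module ℚ V] (A : SIForm ℚ V) [FiniteDimensional ℚ V]
    (x : V) : A.sL (A.sL x) = A.t (A.t x) + A.t.symm (A.t.symm x) + (2 : ℚ) • x := by
  rw [sL_apply, sL_apply]
  simp only [map_add, LinearEquiv.apply_symm_apply, LinearEquiv.symm_apply_apply]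
  module

lemma two_dL_sq {V : Type} [AddCommGroup V] [Module ℚ V] (A : SIForm ℚ V) [FiniteDimensional ℚ V]
    (x : V) : A.dL (A.dL x) = A.t (A.t x) + A.t.symm (A.t.symm x) - (2 : ℚ) • x := by
  rw [dL_apply, dL_apply]
  simp only [map_sub, LinearEquiv.apply_symm_apply, LinearEquiv.symm_apply_apply]
  module

lemma four_sL {V : Type} [AddCommGroup V] [Module ℚ V] (A : SIForm ℚ V) [FiniteDimensional ℚ V]
    (τ : ℚ) (h : ∀ x, A.t (A.t (A.t (A.t x))) + A.t.symm (A.t.symm (A.t.symm (A.t.symm x))) = τ • x)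
    (x : V) :
    A.sL (A.sL (A.sL (A.sL x))) = (4 : ℚ) • A.sL (A.sL x) - (2 - τ) • x := by
  have h0 := h x
  rw [← eq_sub_iff_add_eq] at h0
  rw [two_sL_sq, two_sL_sq]
  simp only [map_add, map_smul, LinearEquiv.apply_symm_apply, LinearEquiv.symm_apply_apply]
  rw [h0]
  module

/-- Explicit inverse monodromy-type formula. -/
lemma genusOne_t (p r : ℤ) (h : p ^ 2 - r * (r - 1) ≠ 0) (x : Fin 2 → ℚ) :
    (genusOne p r h).t x =
      ![(((p : ℚ) ^ 2 - (r - 1) ^ 2) * x 0 + p * x 1) / ((p : ℚ) ^ 2 - r * (r - 1)),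
        (- p * x 0 + ((p : ℚ) ^ 2 - r ^ 2) * x 1) / ((p : ℚ) ^ 2 - r * (r - 1))] := by
  have h' : (p : ℚ) ^ 2 - r * (r - 1) ≠ 0 := by exact_mod_cast h
  refine (genusOne p r h).t_unique fun y => ?_
  change genusOneθ p r _ y = genusOneθ p r y x
  rw [genusOneθ_apply, genusOneθ_apply]
  simp only [Matrix.cons_val_zero, Matrix.cons_val_one]
  field_simp
  ring

lemma genusOne_t_symm (p r : ℤ) (h : p ^ 2 - r * (r - 1) ≠ 0) (x : Fin 2 → ℚ) :
    (genusOne p r h).t.symm x =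
      ![(((p : ℚ) ^ 2 - r ^ 2) * x 0 - p * x 1) / ((p : ℚ) ^ 2 - r * (r - 1)),
        (p * x 0 + ((p : ℚ) ^ 2 - (r - 1) ^ 2) * x 1) / ((p : ℚ) ^ 2 - r * (r - 1))] := by
  have h' : (p : ℚ) ^ 2 - r * (r - 1) ≠ 0 := by exact_mod_cast h
  rw [LinearEquiv.symm_apply_eq, genusOne_t]
  funext i
  fin_cases i
  · simp only [Fin.zero_eta, Matrix.cons_val_zero, Matrix.cons_val_one]
    field_simp
    ring
  · simp only [Fin.mk_one, Matrix.cons_val_zero, Matrix.cons_val_one]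
    field_simp
    ring

lemma genusOne_tt (p r : ℤ) (h : p ^ 2 - r * (r - 1) ≠ 0) (x : Fin 2 → ℚ) :
    (genusOne p r h).t x + (genusOne p r h).t.symm x =
      (2 - 1 / ((p : ℚ) ^ 2 - r * (r - 1))) • x := by
  have h' : (p : ℚ) ^ 2 - r * (r - 1) ≠ 0 := by exact_mod_cast h
  rw [genusOne_t, genusOne_t_symm]
  funext i
  fin_cases i
  · simp only [Fin.zero_eta, Pi.add_apply, Pi.smul_apply, smul_eq_mul, Matrix.cons_val_zero]
    field_simp
    ring
  · simp only [Fin.mk_one, Pi.add_apply, Pi.smul_apply, smul_eq_mul, Matrix.cons_val_one,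
      Matrix.cons_val_fin_one]
    field_simp
    ring

lemma formA_tt (q : ℕ) (x : Fin 2 → ℚ) :
    (formA q).t x + (formA q).t.symm x = (2 - 1 / (4 * (q + 1 : ℚ) ^ 4)) • x := by
  have h := genusOne_tt _ _ (det_one q) x
  have e : (((4 * (q + 1 : ℤ) ^ 4 : ℤ) : ℚ) ^ 2 - ((1 - 4 * (q + 1 : ℤ) ^ 4 : ℤ) : ℚ) *
      (((1 - 4 * (q + 1 : ℤ) ^ 4 : ℤ) : ℚ) - 1)) = 4 * (q + 1 : ℚ) ^ 4 := by
    push_cast
    ring
  rw [e] at h
  exact h

lemma formB_tt (q : ℕ) (x : Fin 2 → ℚ) :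
    (formB q).t x + (formB q).t.symm x = (2 - 1 / (4 * (q + 1 : ℚ) ^ 4)) • x := by
  have h := genusOne_tt _ _ (det_two q) x
  have e : (((2 * (q + 1 : ℤ) ^ 2 : ℤ) : ℚ) ^ 2 - ((1 : ℤ) : ℚ) * (((1 : ℤ) : ℚ) - 1)) =
      4 * (q + 1 : ℚ) ^ 4 := by
    push_cast
    ring
  rw [e] at h
  exact h

lemma formA_θ (q : ℕ) (x y : Fin 2 → ℚ) : (formA q).θ x y =
    4 * (q + 1 : ℚ) ^ 4 * x 0 * y 0 + (1 - 4 * (q + 1 : ℚ) ^ 4) * x 0 * y 1 +
      (- 4 * (q + 1 : ℚ) ^ 4) * x 1 * y 0 + 4 * (q + 1 : ℚ) ^ 4 * x 1 * y 1 := by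
  change genusOneθ _ _ x y = _
  rw [genusOneθ_apply]
  push_cast
  ring

lemma formB_θ (q : ℕ) (x y : Fin 2 → ℚ) : (formB q).θ x y =
    2 * (q + 1 : ℚ) ^ 2 * x 0 * y 0 + x 0 * y 1 + 2 * (q + 1 : ℚ) ^ 2 * x 1 * y 1 := by
  change genusOneθ _ _ x y = _
  rw [genusOneθ_apply]
  push_cast
  ring

/-- The change of basis, scaling one form to the other. -/
def bmap (δ : ℚ) : (Fin 2 → ℚ) →ₗ[ℚ] (Fin 2 → ℚ) where
  toFun x := ![(1 + 1 / δ) / 2 * x 0 + (1 - 1 / δ) / 2 * x 1,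
    (1 - 1 / δ) / 2 * x 0 + (1 + 1 / δ) / 2 * x 1]
  map_add' x y := by
    funext i
    fin_cases i
    · simp only [Fin.zero_eta, Pi.add_apply, Matrix.cons_val_zero]
      ring
    · simp only [Fin.mk_one, Pi.add_apply, Matrix.cons_val_one, Matrix.cons_val_fin_one]
      ring
  map_smul' c x := by
    funext i
    fin_cases i
    · simp only [Fin.zero_eta, Pi.smul_apply, smul_eq_mul, Matrix.cons_val_zero, RingHom.id_apply]
      ring
    · simp only [Fin.mk_one, Pi.smul_apply, smul_eq_mul, Matrix.cons_val_one, RingHom.id_apply,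
        Matrix.cons_val_fin_one]
      ring

lemma bmap_zero (δ : ℚ) (x : Fin 2 → ℚ) :
    bmap δ x 0 = (1 + 1 / δ) / 2 * x 0 + (1 - 1 / δ) / 2 * x 1 := rfl

lemma bmap_one (δ : ℚ) (x : Fin 2 → ℚ) :
    bmap δ x 1 = (1 - 1 / δ) / 2 * x 0 + (1 + 1 / δ) / 2 * x 1 := rfl

lemma bmap_swap (δ : ℚ) (x : Fin 2 → ℚ) : swapρ (bmap δ x) = bmap δ (swapρ x) := by
  funext i
  fin_cases i
  · change bmap δ x 1 = bmap δ (swapρ x) 0
    rw [bmap_zero, bmap_one, swapρ_zero, swapρ_one]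
    ring
  · change bmap δ x 0 = bmap δ (swapρ x) 1
    rw [bmap_zero, bmap_one, swapρ_zero, swapρ_one]
    ring

lemma bmap_isom (q : ℕ) (x y : Fin 2 → ℚ) :
    (4 * (q + 1 : ℚ) ^ 2 + 1) * (formA q).θ (bmap (4 * (q + 1 : ℚ) ^ 2 + 1) x)
      (bmap (4 * (q + 1 : ℚ) ^ 2 + 1) y) = (formB q).θ x y := by
  have hδ : (4 * (q + 1 : ℚ) ^ 2 + 1) ≠ 0 := by positivity
  rw [formA_θ, formB_θ, bmap_zero, bmap_zero, bmap_one, bmap_one]
  field_simp
  ring

/-- The change of basis on the cables. -/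
def bcable (δ : ℚ) (c : ℕ) : (Fin c → Fin 2 → ℚ) →ₗ[ℚ] (Fin c → Fin 2 → ℚ) :=
  LinearMap.pi fun i => bmap δ ∘ₗ LinearMap.proj i

lemma bcable_apply (δ : ℚ) (c : ℕ) (x : Fin c → Fin 2 → ℚ) (i : Fin c) :
    bcable δ c x i = bmap δ (x i) := rfl

lemma bcable_isom (q : ℕ) (c : ℕ) (x y : Fin c → Fin 2 → ℚ) :
    (4 * (q + 1 : ℚ) ^ 2 + 1) * ((formA q).cable c).θ (bcable (4 * (q + 1 : ℚ) ^ 2 + 1) c x)
      (bcable (4 * (q + 1 : ℚ) ^ 2 + 1) c y) = ((formB q).cable c).θ x y := by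
  change _ * (formA q).cableθ c _ _ = (formB q).cableθ c x y
  rw [cableθ_apply, cableθ_apply, Finset.mul_sum]
  refine Finset.sum_congr rfl fun i _ => ?_
  rw [Finset.mul_sum]
  refine Finset.sum_congr rfl fun j _ => ?_
  simp only [bcable_apply]
  split_ifs
  · exact bmap_isom q _ _
  · exact bmap_isom q _ _

lemma bcable_ρ (q : ℕ) (δ : ℚ) (c : ℕ) (x : Fin c → Fin 2 → ℚ) :
    ((formA q).cable c).ρ (bcable δ c x) = bcable δ c (((formB q).cable c).ρ x) := by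
  funext i
  exact bmap_swap δ _

/-- The 4-cable of the example is metabolic. -/
theorem formF_cable_four (q : ℕ) : ((formF q).cable 4).Metabolic := by
  apply of_cable_sub
  have hn : (q + 1 : ℚ) ≠ 0 := by positivity
  set A := (formA q).cable 4 with hA
  have h4 : ∀ x, A.t (A.t (A.t (A.t x))) + A.t.symm (A.t.symm (A.t.symm (A.t.symm x))) =
      (2 - 1 / (4 * (q + 1 : ℚ) ^ 4)) • x := by
    intro x
    have h1 := (formA q).cable_t_pow 3 x
    have h2 := (formA q).cable_symm_pow 3 x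
    have h1' : A.t (A.t (A.t (A.t x))) = fun i => (formA q).t (x i) := h1
    have h2' : A.t.symm (A.t.symm (A.t.symm (A.t.symm x))) = fun i => (formA q).t.symm (x i) := h2
    rw [h1', h2']
    funext i
    exact formA_tt q (x i)
  have h5 : ∀ x, A.sL (A.sL (A.sL (A.sL x))) =
      (4 : ℚ) • A.sL (A.sL x) - (1 / (4 * (q + 1 : ℚ) ^ 4)) • x := by
    intro x
    rw [four_sL A _ h4 x]
    congr 2
    ring
  have hsq := σL_sq A (q + 1 : ℚ) hn h5
  refine sub_of_isom ((A.σL (q + 1 : ℚ)) ∘ₗ bcable (4 * (q + 1 : ℚ) ^ 2 + 1) 4) rfl ?_ ?_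
  · intro x y
    change A.θ (A.σL _ _) (A.σL _ _) = _
    rw [σL_adj, ← bcable_isom, ← hA]
    rw [← σL_adj, ← σL_adj, hsq, map_smul, LinearMap.smul_apply, smul_eq_mul]
  · intro x
    change A.ρ (A.σL _ _) = A.σL _ _
    rw [σL_ρ, bcable_ρ]

/-- The element of norm `4 n² + 1` in the 2-cable. -/
noncomputable def zL {V : Type} [AddCommGroup V] [Module ℚ V] (A : SIForm ℚ V)
    [FiniteDimensional ℚ V] (n : ℚ) : V →ₗ[ℚ] V :=
  (2 * n) • LinearMap.id + (2 * n ^ 2) • A.dL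

lemma zL_isom {V : Type} [AddCommGroup V] [Module ℚ V] (A : SIForm ℚ V)
    [FiniteDimensional ℚ V] (n : ℚ) (hn : n ≠ 0)
    (h : ∀ x, A.dL (A.dL x) = - (1 / (4 * n ^ 4)) • x) (x y : V) :
    A.θ (zL A n x) (zL A n y) = (4 * n ^ 2 + 1) * A.θ x y := by
  change A.θ ((2 * n) • x + (2 * n ^ 2) • A.dL x) ((2 * n) • y + (2 * n ^ 2) • A.dL y) = _
  simp only [map_add, map_smul, LinearMap.add_apply, LinearMap.smul_apply, smul_eq_mul]
  have e1 : A.θ (A.dL x) y = - A.θ x (A.dL y) := A.dL_adj _ _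
  have e2 : A.θ (A.dL x) (A.dL y) = (1 / (4 * n ^ 4)) * A.θ x y := by
    rw [dL_adj, h, map_smul, smul_eq_mul]
    ring
  rw [e1, e2]
  field_simp
  ring

/-- Forgetting the strong inversion, already the 2-cable of the example is metabolic. -/
theorem formF_cable_two_plain (q : ℕ) : ((formF q).cable 2).PlainMetabolic := by
  apply plain_of_cable_sub
  have hn : (q + 1 : ℚ) ≠ 0 := by positivity
  have h4 : ∀ x, ((formA q).cable 2).dL (((formA q).cable 2).dL x) =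
      - (1 / (4 * (q + 1 : ℚ) ^ 4)) • x := by
    intro x
    have h1 := (formA q).cable_t_pow 1 x
    have h2 := (formA q).cable_symm_pow 1 x
    have h1' : ((formA q).cable 2).t (((formA q).cable 2).t x) = fun i => (formA q).t (x i) := h1
    have h2' : ((formA q).cable 2).t.symm (((formA q).cable 2).t.symm x) =
      fun i => (formA q).t.symm (x i) := h2
    rw [two_dL_sq, h1', h2']
    have h3 : ((fun i => (formA q).t (x i)) + fun i => (formA q).t.symm (x i)) =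
        (2 - 1 / (4 * (q + 1 : ℚ) ^ 4)) • x := by
      funext i
      exact formA_tt q (x i)
    rw [h3]
    module
  refine plain_sub_of_isom ((zL ((formA q).cable 2) (q + 1 : ℚ)) ∘ₗ
    bcable (4 * (q + 1 : ℚ) ^ 2 + 1) 2) rfl ?_
  intro x y
  rw [← bcable_isom, LinearMap.comp_apply, LinearMap.comp_apply,
    zL_isom ((formA q).cable 2) (q + 1 : ℚ) hn h4]

end SIForm

end Pool.Agent.KAQ
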