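import Pool.Agent.KAQ.Basic

/-!
# Orthogonal sums and the genus one examples: definitions
-/

namespace Pool.Agent.KAQ

universe u v w

namespace SIForm

variable {k : Type u} [Field k] {V : Type v} [AddCommGroup V] [Module k V]

/-- The bilinear form of an orthogonal sum. -/
def piθ {ι : Type} [Fintype ι] (S : ι → SIForm k V) : (ι → V) →ₗ[k] (ι → V) →ₗ[k] k :=
  LinearMap.mk₂ k (fun x y => ∑ i, (S i).θ (x i) (y i))
    (by intro x x' y; simp [Finset.sum_add_distrib])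
    (by intro c x y; simp [Finset.mul_sum])
    (by intro x y y'; simp [Finset.sum_add_distrib])
    (by intro c x y; simp [Finset.mul_sum])

@[simp] lemma piθ_apply {ι : Type} [Fintype ι] (S : ι → SIForm k V) (x y : ι → V) :
    piθ S x y = ∑ i, (S i).θ (x i) (y i) := rfl

lemma piθ_single {ι : Type} [Fintype ι] [DecidableEq ι] (S : ι → SIForm k V) (x : ι → V) (j : ι)
    (y : V) : piθ S x (Pi.single j y) = (S j).θ (x j) y := by
  rw [piθ_apply, Finset.sum_eq_single j]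
  · simp
  · intro b _ hb
    simp [Pi.single_eq_of_ne hb]
  · simp

lemma piθ_single' {ι : Type} [Fintype ι] [DecidableEq ι] (S : ι → SIForm k V) (x : ι → V) (j : ι)
    (y : V) : piθ S (Pi.single j y) x = (S j).θ y (x j) := by
  rw [piθ_apply, Finset.sum_eq_single j]
  · simp
  · intro b _ hb
    simp [Pi.single_eq_of_ne hb]
  · simp

/-- The action of the strong inversion on an orthogonal sum. -/
def piρ {ι : Type} (S : ι → SIForm k V) : (ι → V) →ₗ[k] (ι → V) :=
  LinearMap.pi fun i => (S i).ρ ∘ₗ LinearMap.proj i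

@[simp] lemma piρ_apply {ι : Type} (S : ι → SIForm k V) (x : ι → V) (i : ι) :
    piρ S x i = (S i).ρ (x i) := rfl

lemma piρ_invol {ι : Type} (S : ι → SIForm k V) (x : ι → V) : piρ S (piρ S x) = x := by
  funext i
  simp [(S i).ρ_invol]

lemma piθ_ρ {ι : Type} [Fintype ι] (S : ι → SIForm k V) (x y : ι → V) :
    piθ S (piρ S x) (piρ S y) = piθ S y x := by
  simp [(S _).θ_ρ]

lemma piθ_nonsing {ι : Type} [Fintype ι] (S : ι → SIForm k V) (x : ι → V)
    (h : ∀ y, piθ S x y = 0) : x = 0 := by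
  classical
  funext i
  refine (S i).nonsing _ fun y => ?_
  rw [← piθ_single]
  exact h _

lemma piθ_unimod {ι : Type} [Fintype ι] (S : ι → SIForm k V) (x : ι → V)
    (h : ∀ y, piθ S x y = piθ S y x) : x = 0 := by
  classical
  funext i
  refine (S i).unimod _ fun y => ?_
  rw [← piθ_single, ← piθ_single']
  exact h _

/-- The orthogonal sum of a finite family of strongly invertible Seifert forms (the form of an
equivariant connected sum). -/
def pi {ι : Type} [Fintype ι] (S : ι → SIForm k V) : SIForm k (ι → V) where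
  θ := piθ S
  ρ := piρ S
  ρ_invol := piρ_invol S
  θ_ρ := piθ_ρ S
  nonsing := piθ_nonsing S
  unimod := piθ_unimod S

/-- The Seifert matrix `[[p, r], [r - 1, p]]`. -/
def genusOneθ (p r : ℤ) : (Fin 2 → ℚ) →ₗ[ℚ] (Fin 2 → ℚ) →ₗ[ℚ] ℚ :=
  LinearMap.mk₂ ℚ (fun x y => p * x 0 * y 0 + r * x 0 * y 1 + (r - 1) * x 1 * y 0 + p * x 1 * y 1)
    (by intro x x' y; simp only [Pi.add_apply]; ring)
    (by intro c x y; simp only [Pi.smul_apply, smul_eq_mul]; ring)
    (by intro x y y'; simp only [Pi.add_apply]; ring)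
    (by intro c x y; simp only [Pi.smul_apply, smul_eq_mul]; ring)

lemma genusOneθ_apply (p r : ℤ) (x y : Fin 2 → ℚ) :
    genusOneθ p r x y =
      p * x 0 * y 0 + r * x 0 * y 1 + (r - 1) * x 1 * y 0 + p * x 1 * y 1 := rfl

/-- The involution exchanging the two basis vectors. -/
def swapρ : (Fin 2 → ℚ) →ₗ[ℚ] (Fin 2 → ℚ) :=
  LinearMap.pi fun i => LinearMap.proj i.rev

@[simp] lemma swapρ_zero (x : Fin 2 → ℚ) : swapρ x 0 = x 1 := rfl

@[simp] lemma swapρ_one (x : Fin 2 → ℚ) : swapρ x 1 = x 0 := rfl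

lemma genusOne_nonsing (p r : ℤ) (h : p ^ 2 - r * (r - 1) ≠ 0) (x : Fin 2 → ℚ)
    (hx : ∀ y, genusOneθ p r x y = 0) : x = 0 := by
  have h0 := hx ![1, 0]
  have h1 := hx ![0, 1]
  rw [genusOneθ_apply] at h0 h1
  simp only [Matrix.cons_val_zero, Matrix.cons_val_one, mul_one, mul_zero, add_zero,
    zero_add] at h0 h1
  have h' : (p : ℚ) ^ 2 - r * (r - 1) ≠ 0 := by exact_mod_cast h
  have e0 : ((p : ℚ) ^ 2 - r * (r - 1)) * x 0 = 0 := by linear_combination p * h0 - (r - 1) * h1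
  have e1 : ((p : ℚ) ^ 2 - r * (r - 1)) * x 1 = 0 := by linear_combination p * h1 - r * h0
  funext i
  fin_cases i
  · exact (mul_eq_zero.mp e0).resolve_left h'
  · exact (mul_eq_zero.mp e1).resolve_left h'

lemma genusOne_unimod (p r : ℤ) (x : Fin 2 → ℚ)
    (hx : ∀ y, genusOneθ p r x y = genusOneθ p r y x) : x = 0 := by
  have h0 := hx ![1, 0]
  have h1 := hx ![0, 1]
  rw [genusOneθ_apply, genusOneθ_apply] at h0 h1
  simp only [Matrix.cons_val_zero, Matrix.cons_val_one, mul_one, mul_zero, add_zero,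
    zero_add, zero_mul] at h0 h1
  funext i
  fin_cases i
  · change x 0 = 0
    linear_combination h1
  · change x 1 = 0
    linear_combination -h0

/-- The strongly invertible Seifert form of a genus one knot whose invariant Seifert surface has the
Seifert matrix `[[p, r], [r - 1, p]]` in a basis exchanged by the strong inversion. -/
def genusOne (p r : ℤ) (h : p ^ 2 - r * (r - 1) ≠ 0) : SIForm ℚ (Fin 2 → ℚ) where
  θ := genusOneθ p r
  ρ := swapρ
  ρ_invol x := by funext i; fin_cases i <;> rfl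
  θ_ρ x y := by
    rw [genusOneθ_apply, genusOneθ_apply, swapρ_zero, swapρ_one, swapρ_zero, swapρ_one]
    ring
  nonsing := genusOne_nonsing p r h
  unimod := genusOne_unimod p r

lemma det_one (q : ℕ) :
    (4 * (q + 1 : ℤ) ^ 4) ^ 2 - (1 - 4 * (q + 1 : ℤ) ^ 4) * ((1 - 4 * (q + 1 : ℤ) ^ 4) - 1) ≠ 0 := by
  have h : (4 * (q + 1 : ℤ) ^ 4) ^ 2 -
      (1 - 4 * (q + 1 : ℤ) ^ 4) * ((1 - 4 * (q + 1 : ℤ) ^ 4) - 1) = 4 * (q + 1 : ℤ) ^ 4 := by ring
  rw [h]
  positivity

lemma det_two (q : ℕ) : (2 * (q + 1 : ℤ) ^ 2) ^ 2 - 1 * ((1 : ℤ) - 1) ≠ 0 := by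
  have h : (2 * (q + 1 : ℤ) ^ 2) ^ 2 - 1 * ((1 : ℤ) - 1) = 4 * (q + 1 : ℤ) ^ 4 := by ring
  rw [h]
  positivity

/-- The form `[[4n⁴, 1 - 4n⁴], [-4n⁴, 4n⁴]]`, `n = q + 1`, of the twist knot `C(2, 8n⁴)` (the knot
`9_2` for `q = 0`). -/
def formA (q : ℕ) : SIForm ℚ (Fin 2 → ℚ) :=
  genusOne (4 * (q + 1) ^ 4) (1 - 4 * (q + 1) ^ 4) (det_one q)

/-- The form `[[2n², 1], [0, 2n²]]`, `n = q + 1`, of the double twist knot `C(4n², 4n²)` (the knot
`7_4` for `q = 0`). -/
def formB (q : ℕ) : SIForm ℚ (Fin 2 → ℚ) :=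
  genusOne (2 * (q + 1) ^ 2) 1 (det_two q)

/-- The form of the equivariant connected sum `C(2, 8n⁴) # -C(4n², 4n²)`, `n = q + 1`. -/
def formF (q : ℕ) : SIForm ℚ ((Fin 2 → ℚ) × (Fin 2 → ℚ)) :=
  (formA q).sub (formB q)

end SIForm

end Pool.Agent.KAQ
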