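import Pool.Agent.KAQ.Cable

/-!
# Klein structures and the 2-cable
-/

namespace Pool.Agent.KAQ

universe u v w

namespace SIForm

set_option linter.unusedSectionVars false

variable {k : Type u} [Field k] {V : Type v} [AddCommGroup V] [Module k V]
  {W : Type w} [AddCommGroup W] [Module k W] [FiniteDimensional k V] [FiniteDimensional k W]

lemma cable2_θ (S : SIForm k V) (x y : Fin 2 → V) :
    (S.cable 2).θ x y = S.θ (x 0) (y 0) + S.θ (x 0) (y 1) + S.θ (y 0) (x 1) +
      S.θ (x 1) (y 1) := by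
  change S.cableθ 2 x y = _
  rw [cableθ_apply]
  simp only [Fin.sum_univ_two]
  norm_num
  ring

lemma cable2_ρ (S : SIForm k V) (x : Fin 2 → V) :
    (S.cable 2).ρ x = ![S.ρ (x 1), S.ρ (x 0)] := by
  funext i
  fin_cases i <;> rfl

lemma cable2_t (S : SIForm k V) (x : Fin 2 → V) :
    (S.cable 2).t x = ![S.t (x 1), x 0] := by
  refine (S.cable 2).t_unique fun y => ?_
  rw [cable2_θ, cable2_θ]
  simp only [Matrix.cons_val_zero, Matrix.cons_val_one, S.t_spec]
  ring

/-- A Klein structure makes the 2-cable metabolic. -/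
lemma Klein.cable_two {S : SIForm k V} (h : S.Klein) : (S.cable 2).Metabolic := by
  obtain ⟨α, h1, h2, h3⟩ := h
  have a1 : ∀ x y, S.θ x (α.symm y) = - S.θ (α x) y := by
    intro x y
    have := h1 x (α.symm y)
    rw [LinearEquiv.apply_symm_apply] at this
    rw [this, neg_neg]
  have a2 : ∀ x y, S.θ (α x) y = S.θ y (α.symm x) := by
    intro x y
    have := h2 (α.symm x) y
    rw [LinearEquiv.apply_symm_apply] at this
    exact this
  have a3 : ∀ x y, S.θ (α.symm x) (α.symm y) = - S.θ x y := by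
    intro x y
    have := h1 (α.symm x) (α.symm y)
    rw [LinearEquiv.apply_symm_apply, LinearEquiv.apply_symm_apply] at this
    rw [this, neg_neg]
  let f : V →ₗ[k] (Fin 2 → V) :=
    LinearMap.pi fun i => if i = 0 then LinearMap.id else α.symm.toLinearMap
  have f0 : ∀ x, f x 0 = x := fun x => rfl
  have f1 : ∀ x, f x 1 = α.symm x := fun x => rfl
  have finj : Function.Injective f := by
    intro x y h
    have := congrFun h 0
    rwa [f0, f0] at this
  refine ⟨LinearMap.range f, ?_, ?_, ?_⟩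
  · rintro _ ⟨x, rfl⟩
    refine ⟨S.ρ (α.symm x), ?_⟩
    funext i
    fin_cases i
    · rfl
    · change α.symm (S.ρ (α.symm x)) = S.ρ x
      rw [← h3, LinearEquiv.apply_symm_apply]
  · rintro _ ⟨x, rfl⟩ _ ⟨y, rfl⟩
    rw [cable2_θ, f0, f0, f1, f1, a3, a1, a2]
    ring
  · rw [LinearMap.finrank_range_of_inj finj, finrank_fun]

/-- Forms which are Witt equivalent to a form with a Klein structure have metabolic 2-cable. -/
lemma KleinClass.cable_two {S : SIForm k V} (h : S.KleinClass) : (S.cable 2).Metabolic := by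
  obtain ⟨V', _, _, _, S', h1, h2⟩ := h
  exact (cable_sub 2 (h2.cable 2)).cancel h1.cable_two

lemma exists_induced {N P : Type*} [AddCommGroup N] [Module k N] [AddCommGroup P] [Module k P]
    (M : Submodule k P) (f g : N →ₗ[k] P) (hf : Function.Surjective f)
    (h : ∀ n, f n ∈ M → g n ∈ M) :
    ∃ δ : (P ⧸ M) →ₗ[k] (P ⧸ M), ∀ n, δ (M.mkQ (f n)) = M.mkQ (g n) := by
  obtain ⟨η, hη⟩ := LinearMap.exists_rightInverse_of_surjective f (LinearMap.range_eq_top.mpr hf)
  have hη' : ∀ p, f (η p) = p := fun p => LinearMap.congr_fun hη p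
  have hker : M ≤ LinearMap.ker (M.mkQ ∘ₗ g ∘ₗ η) := by
    intro p hp
    rw [LinearMap.mem_ker]
    change M.mkQ (g (η p)) = 0
    rw [Submodule.mkQ_apply, Submodule.Quotient.mk_eq_zero]
    exact h _ (by rw [hη']; exact hp)
  refine ⟨M.liftQ (M.mkQ ∘ₗ g ∘ₗ η) hker, fun n => ?_⟩
  rw [Submodule.mkQ_apply, Submodule.liftQ_apply]
  change M.mkQ (g (η (f n))) = _
  rw [Submodule.mkQ_apply, Submodule.mkQ_apply, Submodule.Quotient.eq, ← map_sub]
  refine h _ ?_
  rw [map_sub, hη', sub_self]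
  exact M.zero_mem

/-- Sublagrangian reduction. -/
lemma exists_reduction (S : SIForm k V) (M : Submodule k V) (tM : ∀ x ∈ M, S.t x ∈ M)
    (ρM : ∀ x ∈ M, S.ρ x ∈ M) (iso : ∀ x ∈ M, ∀ y ∈ M, S.θ x y = 0)
    (P : Submodule k V) (hP : P = S.lam.orthogonal M) (M' : Submodule k P)
    (hM' : M' = M.comap P.subtype) :
    ∃ (hρ : ∀ x ∈ P, S.ρ x ∈ P) (S' : SIForm k (P ⧸ M')),
      (∀ x y : P, S'.θ (M'.mkQ x) (M'.mkQ y) = S.θ x y) ∧
      (∀ x : P, S'.ρ (M'.mkQ x) = M'.mkQ ⟨S.ρ x, hρ x x.2⟩) ∧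
      (S.sub S').Metabolic ∧ (∀ x ∈ P, ∀ m ∈ M, S.θ m x = 0 ∧ S.θ x m = 0) := by
  have f3 : ∀ x ∈ P, ∀ m ∈ M, S.θ m x = 0 := by
    intro x hx m hm
    obtain ⟨m1, hm1, rfl⟩ := exists_of_mem (LinearMap.id - S.t.toLinearMap)
      (by
        rw [← LinearMap.ker_eq_bot, LinearMap.ker_eq_bot']
        intro z hz
        exact S.one_sub_t_inj hz) M
      (fun z hz => M.sub_mem hz (tM z hz)) hm
    have := S.lam_eq m1 x
    change S.θ (m1 - S.t m1) x = 0
    rw [← this]
    rw [hP] at hx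
    exact hx m1 hm1
  have f3' : ∀ x ∈ P, ∀ m ∈ M, S.θ x m = 0 := by
    intro x hx m hm
    rw [← S.t_spec]
    exact f3 x hx _ (tM m hm)
  have ρP : ∀ x ∈ P, S.ρ x ∈ P := by
    intro x hx
    rw [hP]
    intro m hm
    change S.lam m (S.ρ x) = 0
    have e1 : S.θ m (S.ρ x) = S.θ x (S.ρ m) := by
      conv_lhs => rw [← S.ρ_invol m]
      exact S.θ_ρ _ _
    have e2 : S.θ (S.ρ x) m = S.θ (S.ρ m) x := by
      conv_lhs => rw [← S.ρ_invol m]
      exact S.θ_ρ _ _
    rw [lam_apply, e1, e2, f3' x hx _ (ρM m hm), f3 x hx _ (ρM m hm), sub_zero]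
  have MP : M ≤ P := by
    intro x hx
    rw [hP]
    intro m hm
    change S.lam m x = 0
    rw [lam_apply, iso m hm x hx, iso x hx m hm, sub_zero]
  have memM' : ∀ x : P, x ∈ M' ↔ (x : V) ∈ M := by
    intro x
    rw [hM']
    exact Iff.rfl
  obtain ⟨σ, hσ⟩ := LinearMap.exists_rightInverse_of_surjective M'.mkQ
    (LinearMap.range_eq_top.mpr (Submodule.mkQ_surjective M'))
  have hσ' : ∀ a, M'.mkQ (σ a) = a := fun a => LinearMap.congr_fun hσ a
  have hσM : ∀ x : P, ((σ (M'.mkQ x) : P) : V) - (x : V) ∈ M := by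
    intro x
    have h1 : M'.mkQ (σ (M'.mkQ x)) = M'.mkQ x := hσ' _
    rw [Submodule.mkQ_apply, Submodule.mkQ_apply, Submodule.Quotient.eq, memM'] at h1
    exact h1
  let ρP' : P →ₗ[k] P := S.ρ.restrict ρP
  have hρP' : ∀ x : P, ((ρP' x : P) : V) = S.ρ x := fun x => rfl
  let θ' : (P ⧸ M') →ₗ[k] (P ⧸ M') →ₗ[k] k :=
    S.θ.compl₁₂ (P.subtype ∘ₗ σ) (P.subtype ∘ₗ σ)
  have hθ' : ∀ x y : P, θ' (M'.mkQ x) (M'.mkQ y) = S.θ x y := by
    intro x y
    change S.θ (σ (M'.mkQ x) : P) (σ (M'.mkQ y) : P) = _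
    have h1 := f3' _ (σ (M'.mkQ x)).2 _ (hσM y)
    have h2 := f3 _ y.2 _ (hσM x)
    rw [map_sub, sub_eq_zero] at h1
    rw [map_sub, LinearMap.sub_apply, sub_eq_zero] at h2
    rw [h1, h2]
  let ρ' : (P ⧸ M') →ₗ[k] (P ⧸ M') := M'.mkQ ∘ₗ ρP' ∘ₗ σ
  have hρ' : ∀ x : P, ρ' (M'.mkQ x) = M'.mkQ (ρP' x) := by
    intro x
    change M'.mkQ (ρP' (σ (M'.mkQ x))) = _
    rw [← sub_eq_zero, ← map_sub, ← map_sub, Submodule.mkQ_apply,
      Submodule.Quotient.mk_eq_zero, memM']
    exact ρM _ (hσM x)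
  have surj : ∀ a : P ⧸ M', ∃ x : P, M'.mkQ x = a := fun a => ⟨σ a, hσ' a⟩
  have bothP : S.lam.orthogonal P = M := by
    rw [hP]
    exact S.orth_orth M
  have hzero : ∀ x : P, (∀ y : P, S.θ x y = 0) → M'.mkQ x = 0 := by
    intro x hx
    rw [Submodule.mkQ_apply, Submodule.Quotient.mk_eq_zero, memM']
    have hsurj : Function.Surjective (LinearMap.id - S.t.toLinearMap : V →ₗ[k] V) := by
      rw [← LinearMap.injective_iff_surjective, ← LinearMap.ker_eq_bot, LinearMap.ker_eq_bot']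
      intro z hz
      exact S.one_sub_t_inj hz
    obtain ⟨x1, hx1⟩ := hsurj x
    have hx1' : x1 - S.t x1 = x := hx1
    have h2 : x1 ∈ M := by
      rw [← bothP]
      intro y hy
      change S.lam y x1 = 0
      have h3 := S.lam_eq x1 y
      rw [hx1', hx ⟨y, hy⟩, S.lam_neg y x1, neg_eq_zero] at h3
      exact h3
    rw [← hx1']
    exact M.sub_mem h2 (tM _ h2)
  let S' : SIForm k (P ⧸ M') :=
    { θ := θ'
      ρ := ρ'
      ρ_invol := by
        intro a
        obtain ⟨x, rfl⟩ := surj a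
        rw [hρ', hρ']
        congr 1
        apply Subtype.ext
        rw [hρP', hρP', S.ρ_invol]
      θ_ρ := by
        intro a b
        obtain ⟨x, rfl⟩ := surj a
        obtain ⟨y, rfl⟩ := surj b
        rw [hρ', hρ', hθ', hθ', hρP', hρP', S.θ_ρ]
      nonsing := by
        intro a ha
        obtain ⟨x, rfl⟩ := surj a
        apply hzero
        intro y
        rw [← hθ']
        exact ha _
      unimod := by
        intro a ha
        obtain ⟨x, rfl⟩ := surj a
        rw [Submodule.mkQ_apply, Submodule.Quotient.mk_eq_zero, memM', ← bothP]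
        intro y hy
        change S.lam y x = 0
        have h1 := ha (M'.mkQ ⟨y, hy⟩)
        rw [hθ', hθ'] at h1
        rw [lam_apply]
        change S.θ (x : V) y = S.θ y x at h1
        rw [h1, sub_self] }
  refine ⟨ρP, S', hθ', hρ', ?_, fun x hx m hm => ⟨f3 x hx m hm, f3' x hx m hm⟩⟩
  let f : P →ₗ[k] V × (P ⧸ M') := P.subtype.prod M'.mkQ
  have finj : Function.Injective f := by
    intro x y h
    exact Subtype.ext (congrArg Prod.fst h)
  refine ⟨LinearMap.range f, ?_, ?_, ?_⟩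
  · rintro _ ⟨x, rfl⟩
    refine ⟨ρP' x, ?_⟩
    exact Prod.ext rfl (hρ' x).symm
  · rintro _ ⟨x, rfl⟩ _ ⟨y, rfl⟩
    change S.θ x y - θ' (M'.mkQ x) (M'.mkQ y) = 0
    rw [hθ', sub_self]
  · rw [LinearMap.finrank_range_of_inj finj]
    have h1 : Module.finrank k (V × (P ⧸ M')) = Module.finrank k V + Module.finrank k (P ⧸ M') :=
      Module.finrank_prod
    have h2 := Submodule.finrank_quotient_add_finrank M'
    have h3 := S.finrank_orth M
    have h4 : Module.finrank k M' = Module.finrank k M := by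
      rw [← Submodule.finrank_map_subtype_eq P M', hM', Submodule.map_comap_subtype,
        inf_eq_right.mpr MP]
    rw [h1]
    rw [← hP] at h3
    omega

/-- If the 2-cable is metabolic then the form is Witt equivalent to one with a Klein structure. -/
lemma kleinClass_of_cable_two {S : SIForm k V} (h : (S.cable 2).Metabolic) : S.KleinClass := by
  obtain ⟨N, hN1, hN2, hN3⟩ := h
  have hT : ∀ x ∈ N, ![S.t (x 1), x 0] ∈ N := by
    intro x hx
    rw [← cable2_t]
    exact (S.cable 2).t_mem_of_half N hN2 hN3 hx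
  have hR : ∀ x ∈ N, ![S.ρ (x 1), S.ρ (x 0)] ∈ N := by
    intro x hx
    rw [← cable2_ρ]
    exact hN1 x hx
  have hTT : ∀ x ∈ N, ![S.t (x 0), S.t (x 1)] ∈ N := by
    intro x hx
    have := hT _ (hT x hx)
    simpa using this
  -- the isotropic part
  let i0 : V →ₗ[k] (Fin 2 → V) := LinearMap.single k (fun _ => V) 0
  have i00 : ∀ x, i0 x 0 = x := fun x => by simp [i0]
  have i01 : ∀ x, i0 x 1 = 0 := fun x => by simp [i0]
  have ext2 : ∀ x y : Fin 2 → V, x 0 = y 0 → x 1 = y 1 → x = y := by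
    intro x y h0 h1
    funext i
    fin_cases i
    · exact h0
    · exact h1
  set M0 : Submodule k V := N.comap i0 with hM0
  have mem0 : ∀ x, x ∈ M0 ↔ ![x, 0] ∈ N := by
    intro x
    have : i0 x = ![x, 0] := ext2 _ _ (i00 x) (i01 x)
    rw [hM0, Submodule.mem_comap, this]
  have tM0 : ∀ x ∈ M0, S.t x ∈ M0 := by
    intro x hx
    rw [mem0] at hx ⊢
    have := hTT _ hx
    simpa using this
  have mem1 : ∀ y, y ∈ M0 ↔ ![0, y] ∈ N := by
    intro y
    constructor
    · intro hy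
      have := hT _ ((mem0 y).mp hy)
      simpa using this
    · intro hy
      have h1 := hT _ hy
      have h2 : S.t y ∈ M0 := by
        rw [mem0]
        simpa using h1
      exact mem_of_image_mem S.t.toLinearMap S.t.injective M0 tM0 h2
  have ρM0 : ∀ x ∈ M0, S.ρ x ∈ M0 := by
    intro x hx
    rw [mem1]
    have := hR _ ((mem0 x).mp hx)
    simpa using this
  have iso0 : ∀ x ∈ M0, ∀ y ∈ M0, S.θ x y = 0 := by
    intro x hx y hy
    have := hN2 _ ((mem0 x).mp hx) _ ((mem0 y).mp hy)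
    rw [cable2_θ] at this
    simpa using this
  obtain ⟨P, hP⟩ : ∃ P : Submodule k V, P = S.lam.orthogonal M0 := ⟨_, rfl⟩
  obtain ⟨M', hM'⟩ : ∃ M' : Submodule k P, M' = M0.comap P.subtype := ⟨_, rfl⟩
  have memM' : ∀ x : P, x ∈ M' ↔ (x : V) ∈ M0 := by
    intro x
    rw [hM']
    exact Iff.rfl
  obtain ⟨ρP, S', hθ', hρ', hmet, hf3⟩ := S.exists_reduction M0 tM0 ρM0 iso0 P hP M' hM'
  have f3 : ∀ x ∈ P, ∀ m ∈ M0, S.θ m x = 0 := fun x hx m hm => (hf3 x hx m hm).1
  have f6 : ∀ x ∈ N, x 0 ∈ P ∧ x 1 ∈ P := by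
    intro x hx
    have e0 : x 0 ∈ P := by
      rw [hP]
      intro m hm
      change S.lam m (x 0) = 0
      have h1 := hN2 _ hx _ ((mem0 m).mp hm)
      have h2 := hN2 _ ((mem0 m).mp hm) _ hx
      rw [cable2_θ] at h1 h2
      simp only [Matrix.cons_val_zero, Matrix.cons_val_one, map_zero,
        LinearMap.zero_apply, add_zero] at h1 h2
      rw [lam_apply]
      linear_combination h2 - h1
    refine ⟨e0, ?_⟩
    rw [hP]
    intro m hm
    change S.lam m (x 1) = 0
    have key : ∀ m ∈ M0, S.θ m (x 1) = 0 := by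
      intro m hm
      have h2 := hN2 _ ((mem0 m).mp hm) _ hx
      rw [cable2_θ] at h2
      simp only [Matrix.cons_val_zero, Matrix.cons_val_one, map_zero,
        LinearMap.zero_apply, add_zero] at h2
      rw [f3 _ e0 m hm, zero_add] at h2
      exact h2
    have key2 : S.θ (x 1) m = 0 := by
      rw [← S.t_spec]
      exact key _ (tM0 m hm)
    rw [lam_apply, key m hm, key2, sub_zero]
  -- surjectivity onto `P`
  have dimP := S.finrank_orth M0
  rw [← hP] at dimP
  have f7 : N.map (LinearMap.proj 0 : (Fin 2 → V) →ₗ[k] V) = P := by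
    apply Submodule.eq_of_le_of_finrank_eq
    · rintro _ ⟨x, hx, rfl⟩
      exact (f6 x hx).1
    · have h1 := finrank_map_add (LinearMap.proj 0 : (Fin 2 → V) →ₗ[k] V) N
      have h2 : N ⊓ LinearMap.ker (LinearMap.proj 0 : (Fin 2 → V) →ₗ[k] V) =
          M0.map (LinearMap.single k (fun _ : Fin 2 => V) 1) := by
        ext z
        constructor
        · rintro ⟨hz1, hz2⟩
          have hz0 : z 0 = 0 := hz2
          have hz3 : z = ![0, z 1] := ext2 _ _ (by simp [hz0]) (by simp)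
          refine ⟨z 1, ?_, ?_⟩
          · change z 1 ∈ M0
            rw [mem1, ← hz3]
            exact hz1
          · exact ext2 _ _ (by simp [hz0]) (by simp)
        · rintro ⟨m, hm, rfl⟩
          have : (LinearMap.single k (fun _ : Fin 2 => V) 1) m = ![0, m] :=
            ext2 _ _ (by simp) (by simp)
          rw [this]
          exact ⟨(mem1 m).mp hm, by simp⟩
      have hsi : Function.Injective (LinearMap.single k (fun _ : Fin 2 => V) 1) := by
        intro x y h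
        have := congrFun h 1
        simpa using this
      rw [h2, finrank_map_inj _ hsi] at h1
      rw [finrank_fun] at hN3
      omega
  have f7' : ∀ x ∈ P, ∃ n ∈ N, n 0 = x := by
    intro x hx
    rw [← f7] at hx
    obtain ⟨n, hn, hnx⟩ := hx
    exact ⟨n, hn, hnx⟩
  have f8' : ∀ x ∈ P, ∃ n ∈ N, n 1 = x := by
    intro x hx
    obtain ⟨n, hn, rfl⟩ := f7' x hx
    exact ⟨_, hT n hn, by simp⟩
  -- the two projections of `N` onto `P`
  let p0 : N →ₗ[k] P := LinearMap.codRestrict P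
    ((LinearMap.proj 0 : (Fin 2 → V) →ₗ[k] V) ∘ₗ N.subtype) (fun n => (f6 n n.2).1)
  let p1 : N →ₗ[k] P := LinearMap.codRestrict P
    ((LinearMap.proj 1 : (Fin 2 → V) →ₗ[k] V) ∘ₗ N.subtype) (fun n => (f6 n n.2).2)
  have hp0 : ∀ n : N, ((p0 n : P) : V) = (n : Fin 2 → V) 0 := fun n => rfl
  have hp1 : ∀ n : N, ((p1 n : P) : V) = (n : Fin 2 → V) 1 := fun n => rfl
  have sp0 : Function.Surjective p0 := by
    intro x
    obtain ⟨n, hn, hnx⟩ := f7' x x.2
    exact ⟨⟨n, hn⟩, Subtype.ext hnx⟩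
  have sp1 : Function.Surjective p1 := by
    intro x
    obtain ⟨n, hn, hnx⟩ := f8' x x.2
    exact ⟨⟨n, hn⟩, Subtype.ext hnx⟩
  have k01 : ∀ n : N, p0 n ∈ M' → p1 n ∈ M' := by
    intro n hn
    have h1 : (n : Fin 2 → V) 0 ∈ M0 := (memM' _).mp hn
    have h2 := (mem0 _).mp h1
    rw [memM']
    change (n : Fin 2 → V) 1 ∈ M0
    rw [mem1]
    have h3 := N.sub_mem n.2 h2
    have h4 : (n : Fin 2 → V) - ![(n : Fin 2 → V) 0, 0] = ![0, (n : Fin 2 → V) 1] :=
      ext2 _ _ (by simp) (by simp)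
    rwa [h4] at h3
  have k10 : ∀ n : N, p1 n ∈ M' → p0 n ∈ M' := by
    intro n hn
    have h1 : (n : Fin 2 → V) 1 ∈ M0 := (memM' _).mp hn
    have h2 := (mem1 _).mp h1
    rw [memM']
    change (n : Fin 2 → V) 0 ∈ M0
    rw [mem0]
    have h3 := N.sub_mem n.2 h2
    have h4 : (n : Fin 2 → V) - ![0, (n : Fin 2 → V) 1] = ![(n : Fin 2 → V) 0, 0] :=
      ext2 _ _ (by simp) (by simp)
    rwa [h4] at h3
  obtain ⟨γ, hγ⟩ := exists_induced M' p0 p1 sp0 k01
  obtain ⟨α, hα⟩ := exists_induced M' p1 p0 sp1 k10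
  have αγ : ∀ a, α (γ a) = a := by
    intro a
    obtain ⟨x, rfl⟩ := Submodule.mkQ_surjective M' a
    obtain ⟨n, rfl⟩ := sp0 x
    rw [hγ, hα]
  have γα : ∀ a, γ (α a) = a := by
    intro a
    obtain ⟨x, rfl⟩ := Submodule.mkQ_surjective M' a
    obtain ⟨n, rfl⟩ := sp1 x
    rw [hα, hγ]
  -- the key identity
  have key : ∀ n ∈ N, ∀ n' ∈ N, S.θ (n 0) (n' 0) = - S.θ (n 1) (n' 1) := by
    intro n hn n' hn'
    obtain ⟨m, hm, hmn⟩ := exists_of_mem
      (LinearMap.id - (LinearMap.pi fun i => S.t.toLinearMap ∘ₗ LinearMap.proj i) :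
        (Fin 2 → V) →ₗ[k] (Fin 2 → V))
      (by
        rw [← LinearMap.ker_eq_bot, LinearMap.ker_eq_bot']
        intro z hz
        funext i
        exact S.one_sub_t_inj (congrFun hz i)) N
      (fun z hz => by
        refine N.sub_mem hz ?_
        have := hTT z hz
        have e : ![S.t (z 0), S.t (z 1)] =
            (LinearMap.pi fun i => S.t.toLinearMap ∘ₗ LinearMap.proj i :
              (Fin 2 → V) →ₗ[k] (Fin 2 → V)) z := ext2 _ _ rfl rfl
        rwa [e] at this) hn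
    have e0 : n 0 = m 0 - S.t (m 0) := (congrFun hmn 0).symm
    have e1 : n 1 = m 1 - S.t (m 1) := (congrFun hmn 1).symm
    rw [e0, e1, ← S.lam_eq, ← S.lam_eq]
    have h1 := hN2 m hm n' hn'
    have h2 := hN2 n' hn' m hm
    have h3 := S.cableθ_sub_flip 2 m n'
    have h1' : S.cableθ 2 m n' = 0 := h1
    have h2' : S.cableθ 2 n' m = 0 := h2
    rw [h1', h2', Fin.sum_univ_two] at h3
    rw [lam_apply, lam_apply]
    linear_combination -h3
  refine ⟨P ⧸ M', inferInstance, inferInstance, inferInstance, S', ?_, hmet⟩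
  refine ⟨LinearEquiv.ofLinearMap α γ (LinearMap.ext αγ) (LinearMap.ext γα), ?_, ?_, ?_⟩
  · intro a b
    change S'.θ (α a) (α b) = _
    obtain ⟨x, rfl⟩ := Submodule.mkQ_surjective M' a
    obtain ⟨n, rfl⟩ := sp1 x
    obtain ⟨y, rfl⟩ := Submodule.mkQ_surjective M' b
    obtain ⟨n', rfl⟩ := sp1 y
    rw [hα, hα, hθ', hθ']
    exact key n n.2 n' n'.2
  · intro a b
    change S'.θ (α (α a)) b = _
    obtain ⟨x, rfl⟩ := Submodule.mkQ_surjective M' a
    obtain ⟨n, rfl⟩ := sp1 x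
    obtain ⟨y, rfl⟩ := Submodule.mkQ_surjective M' b
    have hTn := hT n n.2
    let n2 : N := ⟨_, hTn⟩
    have e1 : p0 n = p1 n2 := Subtype.ext (by rw [hp0, hp1]; simp [n2])
    rw [hα, e1, hα, hθ', hθ']
    have e2 : ((p0 n2 : P) : V) = S.t (p1 n : P) := by rw [hp0, hp1]; simp [n2]
    rw [e2, S.t_spec]
  · intro a
    change S'.ρ (α a) = γ (S'.ρ a)
    obtain ⟨x, rfl⟩ := Submodule.mkQ_surjective M' a
    obtain ⟨n, rfl⟩ := sp1 x
    rw [hα, hρ', hρ']
    have hRn := hR n n.2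
    let n2 : N := ⟨_, hRn⟩
    have e1 : (⟨S.ρ (p1 n : P), ρP _ (p1 n : P).2⟩ : P) = p0 n2 :=
      Subtype.ext (by rw [hp0]; simp [n2, hp1])
    have e2 : (⟨S.ρ (p0 n : P), ρP _ (p0 n : P).2⟩ : P) = p1 n2 :=
      Subtype.ext (by rw [hp1]; simp [n2, hp0])
    rw [e1, e2, hγ]

end SIForm

end Pool.Agent.KAQ
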