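import Pool.Agent.KAQ.Basic
import Pool.Agent.KAQ.Dim

/-!
# Linear algebra of strongly invertible Seifert forms
-/

namespace Pool.Agent.KAQ

universe u v w

namespace SIForm

set_option linter.unusedSectionVars false

variable {k : Type u} [Field k] {V : Type v} [AddCommGroup V] [Module k V]
  {W : Type w} [AddCommGroup W] [Module k W]

/-- The intersection form. -/
def lam (S : SIForm k V) : LinearMap.BilinForm k V := S.θ - S.θ.flip

@[simp] lemma lam_apply (S : SIForm k V) (x y : V) : S.lam x y = S.θ x y - S.θ y x := rfl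

lemma lam_nondeg (S : SIForm k V) : S.lam.Nondegenerate := by
  constructor
  · intro x hx
    exact S.unimod x fun y => sub_eq_zero.mp (hx y)
  · intro y hy
    exact S.unimod y fun x => (sub_eq_zero.mp (hy x)).symm

lemma lam_refl (S : SIForm k V) : S.lam.IsRefl := by
  intro x y h
  rw [lam_apply] at h ⊢
  linear_combination -h

lemma lam_neg (S : SIForm k V) (x y : V) : S.lam y x = - S.lam x y := by
  simp

section findim

variable [FiniteDimensional k V] [FiniteDimensional k W]

lemma finrank_orth (S : SIForm k V) (M : Submodule k V) :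
    Module.finrank k M + Module.finrank k (S.lam.orthogonal M) = Module.finrank k V := by
  rw [LinearMap.BilinForm.finrank_orthogonal S.lam_nondeg]
  have := Submodule.finrank_le M
  omega

lemma orth_orth (S : SIForm k V) (M : Submodule k V) :
    S.lam.orthogonal (S.lam.orthogonal M) = M :=
  LinearMap.BilinForm.orthogonal_orthogonal S.lam_nondeg S.lam_refl M

lemma mem_orth (S : SIForm k V) (M : Submodule k V) (x : V) :
    x ∈ S.lam.orthogonal M ↔ ∀ m ∈ M, S.lam m x = 0 := Iff.rfl

/-- A half-dimensional isotropic subspace equals its orthogonal. -/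
lemma eq_orth_of_half (S : SIForm k V) (M : Submodule k V)
    (h0 : ∀ x ∈ M, ∀ y ∈ M, S.lam x y = 0)
    (hd : 2 * Module.finrank k M = Module.finrank k V) : S.lam.orthogonal M = M := by
  symm
  apply Submodule.eq_of_le_of_finrank_eq
  · intro x hx m hm
    exact h0 m hm x hx
  · have := S.finrank_orth M
    omega

lemma θ_nondeg (S : SIForm k V) :
    (S.θ : LinearMap.BilinForm k V).Nondegenerate := by
  have h1 : LinearMap.SeparatingLeft (S.θ : LinearMap.BilinForm k V) := fun x hx => S.nonsing x hx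
  refine ⟨h1, ?_⟩
  intro y hy
  have h2 := S.nonsing (S.ρ y) fun x => by
    rw [← S.ρ_invol x, S.θ_ρ]
    exact hy _
  rw [← S.ρ_invol y, h2, map_zero]

/-- The isometry `t` with `θ (t x) y = θ y x`, as a linear map. -/
noncomputable def tm (S : SIForm k V) : V →ₗ[k] V :=
  (LinearMap.BilinForm.toDual S.θ S.θ_nondeg).symm.toLinearMap ∘ₗ S.θ.flip

lemma tm_spec (S : SIForm k V) (x y : V) : S.θ (S.tm x) y = S.θ y x := by
  have := LinearMap.BilinForm.apply_toDual_symm_apply (B := S.θ) (hB := S.θ_nondeg)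
    (S.θ.flip x) y
  exact this

lemma tm_inj (S : SIForm k V) : Function.Injective S.tm := by
  rw [← LinearMap.ker_eq_bot, LinearMap.ker_eq_bot']
  intro x hx
  have h : ∀ y, S.θ y x = 0 := fun y => by rw [← S.tm_spec, hx]; simp
  exact S.θ_nondeg.2 x h

/-- The isometry `t` of a strongly invertible Seifert form: `θ (t x) y = θ y x`. -/
noncomputable def t (S : SIForm k V) : V ≃ₗ[k] V :=
  LinearEquiv.ofInjectiveEndo S.tm S.tm_inj

lemma t_spec (S : SIForm k V) (x y : V) : S.θ (S.t x) y = S.θ y x := S.tm_spec x y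

lemma θ_ext (S : SIForm k V) {x x' : V} (h : ∀ y, S.θ x y = S.θ x' y) : x = x' := by
  rw [← sub_eq_zero]
  exact S.nonsing _ fun y => by simp [h y]

lemma t_unique (S : SIForm k V) {x x' : V} (h : ∀ y, S.θ x' y = S.θ y x) : S.t x = x' :=
  S.θ_ext fun y => by rw [S.t_spec, h]

lemma t_isom (S : SIForm k V) (x y : V) : S.θ (S.t x) (S.t y) = S.θ x y := by
  rw [S.t_spec, S.t_spec]

lemma ρ_t (S : SIForm k V) (x : V) : S.t (S.ρ (S.t x)) = S.ρ x := by
  refine S.t_unique fun y => ?_
  have h1 : S.θ (S.ρ x) y = S.θ (S.ρ y) x := by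
    conv_lhs => rw [← S.ρ_invol y]
    exact S.θ_ρ x (S.ρ y)
  have h2 : S.θ y (S.ρ (S.t x)) = S.θ (S.t x) (S.ρ y) := by
    conv_lhs => rw [← S.ρ_invol y]
    exact S.θ_ρ (S.ρ y) (S.t x)
  rw [h1, h2, S.t_spec]

lemma lam_eq (S : SIForm k V) (x y : V) : S.lam x y = S.θ (x - S.t x) y := by
  rw [lam_apply, map_sub, LinearMap.sub_apply, S.t_spec]

lemma one_sub_t_inj (S : SIForm k V) {x : V} (h : x - S.t x = 0) : x = 0 := by
  refine S.unimod x fun y => ?_
  have := S.lam_eq x y
  rw [h, map_zero, LinearMap.zero_apply, lam_apply, sub_eq_zero] at this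
  exact this

/-- The left orthogonal of a metabolizer is the metabolizer. -/
lemma mem_of_left_orth (S : SIForm k V) (M : Submodule k V)
    (h0 : ∀ x ∈ M, ∀ y ∈ M, S.θ x y = 0)
    (hd : 2 * Module.finrank k M = Module.finrank k V) {x : V} (hx : ∀ y ∈ M, S.θ x y = 0) :
    x ∈ M := by
  have hB : (S.θ.flip : LinearMap.BilinForm k V).Nondegenerate :=
    ⟨S.θ_nondeg.2, S.θ_nondeg.1⟩
  have h1 := LinearMap.BilinForm.finrank_orthogonal hB M
  have h2 : M = LinearMap.BilinForm.orthogonal (S.θ.flip : LinearMap.BilinForm k V) M := by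
    apply Submodule.eq_of_le_of_finrank_eq
    · intro x hx m hm
      exact h0 x hx m hm
    · omega
  rw [h2]
  intro m hm
  exact hx m hm

/-- A metabolizer is `t`-invariant. -/
lemma t_mem_of_half (S : SIForm k V) (M : Submodule k V)
    (h0 : ∀ x ∈ M, ∀ y ∈ M, S.θ x y = 0)
    (hd : 2 * Module.finrank k M = Module.finrank k V) {x : V} (hx : x ∈ M) : S.t x ∈ M := by
  refine S.mem_of_left_orth M h0 hd fun y hy => ?_
  rw [S.t_spec]
  exact h0 y hy x hx

/-- A subspace stable under an injective endomorphism is stable under preimages. -/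
lemma mem_of_image_mem (f : V →ₗ[k] V) (hf : Function.Injective f) (M : Submodule k V)
    (hM : ∀ x ∈ M, f x ∈ M) {x : V} (hx : f x ∈ M) : x ∈ M := by
  have h1 : M.map f ≤ M := by
    rintro _ ⟨y, hy, rfl⟩
    exact hM y hy
  have h2 : M.map f = M := by
    apply Submodule.eq_of_le_of_finrank_eq h1
    exact finrank_map_inj f hf M
  rw [← h2] at hx
  obtain ⟨y, hy, hxy⟩ := hx
  rwa [← hf hxy]

lemma exists_of_mem (f : V →ₗ[k] V) (hf : Function.Injective f) (M : Submodule k V)
    (hM : ∀ x ∈ M, f x ∈ M) {x : V} (hx : x ∈ M) : ∃ y ∈ M, f y = x := by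
  have h1 : M.map f ≤ M := by
    rintro _ ⟨y, hy, rfl⟩
    exact hM y hy
  have h2 : M.map f = M := by
    apply Submodule.eq_of_le_of_finrank_eq h1
    exact finrank_map_inj f hf M
  rw [← h2] at hx
  obtain ⟨y, hy, hxy⟩ := hx
  exact ⟨y, hy, hxy⟩

/-- Metabolic forms are carried to metabolic forms by isometries. -/
lemma Metabolic.of_equiv {S : SIForm k V} {S' : SIForm k W} (e : V ≃ₗ[k] W)
    (hθ : ∀ x y, S'.θ (e x) (e y) = S.θ x y) (hρ : ∀ x, S'.ρ (e x) = e (S.ρ x))
    (h : S.Metabolic) : S'.Metabolic := by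
  obtain ⟨M, h1, h2, h3⟩ := h
  refine ⟨M.map (e : V →ₗ[k] W), ?_, ?_, ?_⟩
  · rintro _ ⟨x, hx, rfl⟩
    exact ⟨S.ρ x, h1 x hx, (hρ x).symm⟩
  · rintro _ ⟨x, hx, rfl⟩ _ ⟨y, hy, rfl⟩
    exact (hθ x y).trans (h2 x hx y hy)
  · rw [LinearEquiv.finrank_map_eq, h3, LinearEquiv.finrank_eq e]

/-- Cancellation: if `S ⊞ (-S')` and `S'` are metabolic then so is `S`. -/
lemma Metabolic.cancel {S : SIForm k V} {S' : SIForm k W} (h : (S.sub S').Metabolic)
    (h' : S'.Metabolic) : S.Metabolic := by
  obtain ⟨N, hN1, hN2, hN3⟩ := h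
  obtain ⟨P, hP1, hP2, hP3⟩ := h'
  set T : Submodule k (V × W) := (⊤ : Submodule k V).prod P with hT
  set B : Submodule k (V × W) := (⊥ : Submodule k V).prod P with hB
  set A : Submodule k (V × W) := N ⊓ T with hA
  refine ⟨A.map (LinearMap.fst k V W), ?_, ?_, ?_⟩
  · rintro _ ⟨x, hx, rfl⟩
    refine ⟨(S.sub S').ρ x, ⟨hN1 x hx.1, ?_⟩, rfl⟩
    exact ⟨trivial, hP1 _ hx.2.2⟩
  · rintro _ ⟨x, hx, rfl⟩ _ ⟨y, hy, rfl⟩
    have h1 : S.θ x.1 y.1 - S'.θ x.2 y.2 = 0 := hN2 x hx.1 y hy.1
    have h2 := hP2 _ hx.2.2 _ hy.2.2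
    simpa [h2] using h1
  · -- dimension count
    have hNo : (S.sub S').lam.orthogonal N = N := (S.sub S').eq_orth_of_half N
      (fun x hx y hy => by rw [lam_apply, hN2 x hx y hy, hN2 y hy x hx, sub_zero]) hN3
    have hPo : S'.lam.orthogonal P = P := S'.eq_orth_of_half P
      (fun x hx y hy => by rw [lam_apply, hP2 x hx y hy, hP2 y hy x hx, sub_zero]) hP3
    have hBo : (S.sub S').lam.orthogonal B = T := by
      ext z
      constructor
      · intro hz
        refine ⟨trivial, ?_⟩
        rw [← hPo]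
        intro m hm
        have := hz (0, m) ⟨Submodule.mem_bot k |>.mpr rfl, hm⟩
        have e : (S.sub S').lam (0, m) z = - S'.lam m z.2 := by
          simp only [lam_apply]
          change (S.θ 0 z.1 - S'.θ m z.2) - (S.θ z.1 0 - S'.θ z.2 m) = _
          rw [map_zero, LinearMap.zero_apply, map_zero]
          ring
        have h2 : (S.sub S').lam (0, m) z = 0 := this
        rw [e, neg_eq_zero] at h2
        exact h2
      · rintro ⟨-, hz⟩ m ⟨hm1, hm2⟩
        have hm1' : m.1 = 0 := hm1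
        change (S.sub S').lam m z = 0
        simp only [lam_apply]
        change (S.θ m.1 z.1 - S'.θ m.2 z.2) - (S.θ z.1 m.1 - S'.θ z.2 m.2) = _
        rw [hm1', hP2 _ hm2 _ hz, hP2 _ hz _ hm2]
        simp
    have e1 := dim_red (S.sub S').lam (S.sub S').lam_nondeg N B T hNo hBo
    rw [← hA] at e1
    have e3 : Module.finrank k B = Module.finrank k P := by
      have : B = P.map (LinearMap.inr k V W) := by
        ext z
        constructor
        · rintro ⟨h1, h2⟩
          exact ⟨z.2, h2, Prod.ext (by simpa using h1.symm) rfl⟩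
        · rintro ⟨p, hp, rfl⟩
          exact ⟨by simp, hp⟩
      rw [this]
      exact finrank_map_inj _ LinearMap.inr_injective P
    have e4 := finrank_map_add (LinearMap.fst k V W) A
    have e6 : A ⊓ LinearMap.ker (LinearMap.fst k V W) = N ⊓ B := by
      ext z
      constructor
      · rintro ⟨⟨h1, h2⟩, h3⟩
        exact ⟨h1, h3, h2.2⟩
      · rintro ⟨h1, h2⟩
        exact ⟨⟨h1, trivial, h2.2⟩, h2.1⟩
    rw [e6] at e4
    have e5 : Module.finrank k (V × W) = Module.finrank k V + Module.finrank k W :=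
      Module.finrank_prod
    omega

end findim

end SIForm

end Pool.Agent.KAQ
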