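import Pool.Agent.KAQ.Ex2
import Pool.Agent.KAQ.Arith

/-!
# The examples are not Witt equivalent to forms with a Klein structure
-/

namespace Pool.Agent.KAQ

universe u v w

namespace SIForm

set_option linter.unusedSectionVars false

section general

variable {k : Type u} [Field k] {V : Type v} [AddCommGroup V] [Module k V] [FiniteDimensional k V]
  {W : Type w} [AddCommGroup W] [Module k W] [FiniteDimensional k W]

lemma pi_t {ι : Type} [Fintype ι] (S : ι → SIForm k V) (x : ι → V) :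
    (SIForm.pi S).t x = fun i => (S i).t (x i) := by
  refine (SIForm.pi S).t_unique fun y => ?_
  change piθ S _ y = piθ S y x
  rw [piθ_apply, piθ_apply]
  exact Finset.sum_congr rfl fun i _ => (S i).t_spec _ _

lemma pi_t_symm {ι : Type} [Fintype ι] (S : ι → SIForm k V) (x : ι → V) :
    (SIForm.pi S).t.symm x = fun i => (S i).t.symm (x i) := by
  rw [LinearEquiv.symm_apply_eq, pi_t]
  funext i
  exact ((S i).t.apply_symm_apply _).symm

lemma sub_t (A : SIForm k V) (B : SIForm k W) (x : V × W) :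
    (A.sub B).t x = (A.t x.1, B.t x.2) := by
  refine (A.sub B).t_unique fun y => ?_
  change A.θ _ y.1 - B.θ _ y.2 = A.θ y.1 x.1 - B.θ y.2 x.2
  rw [A.t_spec, B.t_spec]

lemma sub_t_symm (A : SIForm k V) (B : SIForm k W) (x : V × W) :
    (A.sub B).t.symm x = (A.t.symm x.1, B.t.symm x.2) := by
  rw [LinearEquiv.symm_apply_eq, sub_t]
  exact Prod.ext (A.t.apply_symm_apply _).symm (B.t.apply_symm_apply _).symm

/-- A metabolizer of a nonzero form contains a nonzero vector on which `t` and `ρ` agree. -/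
lemma exists_fixed (A : SIForm k V) (N : Submodule k V) (hN1 : ∀ x ∈ N, A.ρ x ∈ N)
    (hN2 : ∀ x ∈ N, ∀ y ∈ N, A.θ x y = 0)
    (hN3 : 2 * Module.finrank k N = Module.finrank k V) (hV : 0 < Module.finrank k V)
    (h1 : ∀ x, A.t (A.t x) = x → x = 0) :
    ∃ z ∈ N, z ≠ 0 ∧ A.t z = A.ρ z := by
  have hNb : N ≠ ⊥ := by
    rintro rfl
    rw [finrank_bot] at hN3
    omega
  obtain ⟨n, hn, hn0⟩ := Submodule.exists_mem_ne_zero_of_ne_bot hNb
  have tN : ∀ x ∈ N, A.t x ∈ N := fun x hx => A.t_mem_of_half N hN2 hN3 hx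
  have tsN : ∀ x ∈ N, A.t.symm x ∈ N := by
    intro x hx
    refine mem_of_image_mem A.t.toLinearMap A.t.injective N tN ?_
    change A.t (A.t.symm x) ∈ N
    rw [LinearEquiv.apply_symm_apply]
    exact hx
  by_cases h : n + A.t.symm (A.ρ n) = 0
  · have h2 : A.ρ n = - A.t n := by
      have h3 : A.t (n + A.t.symm (A.ρ n)) = 0 := by rw [h, map_zero]
      rw [map_add, LinearEquiv.apply_symm_apply] at h3
      exact eq_neg_of_add_eq_zero_right h3
    refine ⟨A.t n - A.t.symm n, N.sub_mem (tN n hn) (tsN n hn), ?_, ?_⟩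
    · intro h3
      apply hn0
      apply h1
      rw [sub_eq_zero] at h3
      rw [h3, LinearEquiv.apply_symm_apply]
    · rw [map_sub, map_sub, A.ρ_t_eq, A.ρ_symm_eq, h2, LinearEquiv.apply_symm_apply, map_neg,
        map_neg, LinearEquiv.symm_apply_apply]
      abel
  · refine ⟨n + A.t.symm (A.ρ n), N.add_mem hn (tsN _ (hN1 n hn)), h, ?_⟩
    rw [map_add, map_add, LinearEquiv.apply_symm_apply, A.ρ_symm_eq, A.ρ_invol, add_comm]

end general

/-- Projection to one component by a product of operators. -/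
lemma proj_mem {W : Type} [AddCommGroup W] [Module ℚ W] {m : ℕ}
    (N : Submodule ℚ (Fin 2 → Fin m → W)) (τ : Fin m → ℚ) (hτ : Function.Injective τ)
    (hN : ∀ z ∈ N, (fun j i => τ i • z j i) ∈ N) (z : Fin 2 → Fin m → W) (hz : z ∈ N)
    (i0 : Fin m) : (fun j i => if i = i0 then z j i else 0) ∈ N := by
  have key : ∀ T : Finset (Fin m), (fun j i => (∏ l ∈ T, (τ i - τ l)) • z j i) ∈ N := by
    intro T
    induction T using Finset.induction_on with
    | empty => simpa using hz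
    | insert l T hl ih =>
      have h1 := N.sub_mem (hN _ ih) (N.smul_mem (τ l) ih)
      have h2 : ((fun j i => τ i • (fun j i => (∏ l ∈ T, (τ i - τ l)) • z j i) j i) -
          τ l • (fun j i => (∏ l ∈ T, (τ i - τ l)) • z j i) : Fin 2 → Fin m → W) =
          fun j i => (∏ l ∈ insert l T, (τ i - τ l)) • z j i := by
        funext j i
        rw [Finset.prod_insert hl]
        simp only [Pi.sub_apply, Pi.smul_apply, smul_smul, ← sub_smul]
        congr 1
        ring
      rwa [h2] at h1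
  have h1 := key (Finset.univ.erase i0)
  have hc : (∏ l ∈ Finset.univ.erase i0, (τ i0 - τ l)) ≠ 0 := by
    rw [Finset.prod_ne_zero_iff]
    intro l hl
    rw [Finset.mem_erase] at hl
    exact sub_ne_zero.mpr fun h => hl.1 (hτ h).symm
  have h2 := N.smul_mem (∏ l ∈ Finset.univ.erase i0, (τ i0 - τ l))⁻¹ h1
  have h3 : ((∏ l ∈ Finset.univ.erase i0, (τ i0 - τ l))⁻¹ •
      (fun j i => (∏ l ∈ Finset.univ.erase i0, (τ i - τ l)) • z j i) : Fin 2 → Fin m → W) =
      fun j i => if i = i0 then z j i else 0 := by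
    funext j i
    simp only [Pi.smul_apply, smul_smul]
    by_cases hi : i = i0
    · rw [if_pos hi, hi, inv_mul_cancel₀ hc, one_smul]
    · have h0 : (∏ l ∈ Finset.univ.erase i0, (τ i - τ l)) = 0 :=
        Finset.prod_eq_zero (Finset.mem_erase.mpr ⟨hi, Finset.mem_univ i⟩) (sub_self _)
      rw [if_neg hi, h0, mul_zero, zero_smul]
  rwa [h3] at h2

lemma formF_tt (q : ℕ) (x : (Fin 2 → ℚ) × (Fin 2 → ℚ)) :
    (formF q).t x + (formF q).t.symm x = (2 - 1 / (4 * (q + 1 : ℚ) ^ 4)) • x := by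
  change ((formA q).sub (formB q)).t x + ((formA q).sub (formB q)).t.symm x = _
  rw [sub_t, sub_t_symm]
  exact Prod.ext (formA_tt q x.1) (formB_tt q x.2)

/-- The numerical heart: an isotropic pair in one component vanishes. -/
lemma component_zero (q : ℕ) (x0 x1 : (Fin 2 → ℚ) × (Fin 2 → ℚ))
    (h0 : (formF q).ρ x0 = x0) (h1 : (formF q).ρ x1 = (formF q).t x1)
    (e1 : (formF q).θ x0 x0 + 2 * (formF q).θ x0 x1 + (formF q).θ x1 x1 = 0)
    (e2 : (formF q).θ x0 x0 + 2 * (formF q).θ x1 x0 + (formF q).θ ((formF q).ρ x1) x1 = 0) :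
    x0 = 0 ∧ x1 = 0 := by
  set N : ℚ := (q + 1 : ℚ) with hN
  have hNpos : (0 : ℚ) < N := by
    rw [hN]
    positivity
  have a1 : x0.1 1 = x0.1 0 := congrFun (congrArg Prod.fst h0) 0
  have a2 : x0.2 1 = x0.2 0 := congrFun (congrArg Prod.snd h0) 0
  have hA : swapρ x1.1 = (formA q).t x1.1 := by
    have := congrArg Prod.fst h1
    change swapρ x1.1 = (((formA q).sub (formB q)).t x1).1 at this
    rwa [sub_t] at this
  have hB : swapρ x1.2 = (formB q).t x1.2 := by
    have := congrArg Prod.snd h1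
    change swapρ x1.2 = (((formA q).sub (formB q)).t x1).2 at this
    rwa [sub_t] at this
  have c1 : (8 * N ^ 4 - 1) * x1.1 1 = 8 * N ^ 4 * x1.1 0 := by
    have := (formA q).t_spec x1.1 ![1, 0]
    rw [← hA, formA_θ, formA_θ, swapρ_zero, swapρ_one] at this
    simp only [Matrix.cons_val_zero, Matrix.cons_val_one, Matrix.cons_val_fin_one, ← hN] at this
    linear_combination this
  have c2 : (2 * N ^ 2 - 1) * x1.2 1 = 2 * N ^ 2 * x1.2 0 := by
    have := (formB q).t_spec x1.2 ![1, 0]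
    rw [← hB, formB_θ, formB_θ, swapρ_zero, swapρ_one] at this
    simp only [Matrix.cons_val_zero, Matrix.cons_val_one, Matrix.cons_val_fin_one, ← hN] at this
    linear_combination this
  have f1 : (formF q).θ x0 x0 + 2 * (formF q).θ x0 x1 + (formF q).θ x1 x1 =
      ((formA q).θ x0.1 x0.1 - (formB q).θ x0.2 x0.2) +
      2 * ((formA q).θ x0.1 x1.1 - (formB q).θ x0.2 x1.2) +
      ((formA q).θ x1.1 x1.1 - (formB q).θ x1.2 x1.2) := rfl
  have f2 : (formF q).θ x0 x0 + 2 * (formF q).θ x1 x0 + (formF q).θ ((formF q).ρ x1) x1 =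
      ((formA q).θ x0.1 x0.1 - (formB q).θ x0.2 x0.2) +
      2 * ((formA q).θ x1.1 x0.1 - (formB q).θ x1.2 x0.2) +
      ((formA q).θ (swapρ x1.1) x1.1 - (formB q).θ (swapρ x1.2) x1.2) := rfl
  rw [f1] at e1
  rw [f2] at e2
  simp only [formA_θ, formB_θ, swapρ_zero, swapρ_one, a1, a2, ← hN] at e1 e2
  obtain ⟨b1, hb1⟩ : ∃ b1, b1 = x1.1 1 - x1.1 0 := ⟨_, rfl⟩
  obtain ⟨b2, hb2⟩ : ∃ b2, b2 = x1.2 1 - x1.2 0 := ⟨_, rfl⟩
  have g1 : x1.1 0 = (8 * N ^ 4 - 1) * b1 := by rw [hb1]; linear_combination -c1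
  have g1' : x1.1 1 = 8 * N ^ 4 * b1 := by rw [hb1]; linear_combination -c1
  have g2 : x1.2 0 = (2 * N ^ 2 - 1) * b2 := by rw [hb2]; linear_combination -c2
  have g2' : x1.2 1 = 2 * N ^ 2 * b2 := by rw [hb2]; linear_combination -c2
  rw [g1, g1', g2, g2'] at e1 e2
  have hab : x0.1 0 * b1 = x0.2 0 * b2 := by linear_combination (e1 - e2) / 2
  obtain ⟨r1, r2, r3, r4⟩ := no_sol q (x0.1 0) (2 * N ^ 2 * b1) (x0.2 0) (2 * N ^ 2 * b2)
    (by
      rw [← hN]
      linear_combination e1 - 16 * N ^ 4 * hab)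
    (by linear_combination 2 * N ^ 2 * hab)
  have hN2 : 2 * N ^ 2 ≠ 0 := by positivity
  have s1 : b1 = 0 := (mul_eq_zero.mp r2).resolve_left hN2
  have s2 : b2 = 0 := (mul_eq_zero.mp r4).resolve_left hN2
  rw [s1, mul_zero] at g1 g1'
  rw [s2, mul_zero] at g2 g2'
  constructor
  · refine Prod.ext ?_ ?_
    · funext i
      fin_cases i
      · exact r1
      · exact a1.trans r1
    · funext i
      fin_cases i
      · exact r3
      · exact a2.trans r3
  · refine Prod.ext ?_ ?_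
    · funext i
      fin_cases i
      · exact g1
      · exact g1'
    · funext i
      fin_cases i
      · exact g2
      · exact g2'

/-- Nonempty sums of distinct examples are not Witt equivalent to forms with a Klein structure. -/
theorem not_cable_two_family (m : ℕ) (κ : Fin (m + 1) → ℕ) (hκ : Function.Injective κ) :
    ¬ ((SIForm.pi fun i => formF (κ i)).cable 2).Metabolic := by
  rintro ⟨N, hN1, hN2, hN3⟩
  set X := SIForm.pi fun i => formF (κ i) with hX
  have hV : 0 < Module.finrank ℚ (Fin 2 → Fin (m + 1) → (Fin 2 → ℚ) × (Fin 2 → ℚ)) := by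
    rw [finrank_fun, Module.finrank_pi_fintype]
    simp
  have tt : ∀ z : Fin 2 → Fin (m + 1) → (Fin 2 → ℚ) × (Fin 2 → ℚ),
      (X.cable 2).t ((X.cable 2).t z) = fun j => X.t (z j) := fun z => X.cable_t_pow 1 z
  have ss : ∀ z : Fin 2 → Fin (m + 1) → (Fin 2 → ℚ) × (Fin 2 → ℚ),
      (X.cable 2).t.symm ((X.cable 2).t.symm z) = fun j => X.t.symm (z j) :=
    fun z => X.cable_symm_pow 1 z
  obtain ⟨z, hz, hz0, hzt⟩ := exists_fixed (X.cable 2) N hN1 hN2 hN3 hV (by
    intro x hx
    rw [tt] at hx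
    funext j
    apply X.one_sub_t_inj
    rw [sub_eq_zero]
    exact (congrFun hx j).symm)
  have tN : ∀ x ∈ N, (X.cable 2).t x ∈ N := fun x hx =>
    (X.cable 2).t_mem_of_half N hN2 hN3 hx
  have tsN : ∀ x ∈ N, (X.cable 2).t.symm x ∈ N := by
    intro x hx
    refine mem_of_image_mem (X.cable 2).t.toLinearMap (X.cable 2).t.injective N tN ?_
    change (X.cable 2).t ((X.cable 2).t.symm x) ∈ N
    rw [LinearEquiv.apply_symm_apply]
    exact hx
  let τ : Fin (m + 1) → ℚ := fun i => 2 - 1 / (4 * ((κ i : ℚ) + 1) ^ 4)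
  have hτ : Function.Injective τ := by
    intro i j hij
    apply hκ
    have h1 : (2 : ℚ) - 1 / (4 * ((κ i : ℚ) + 1) ^ 4) = 2 - 1 / (4 * ((κ j : ℚ) + 1) ^ 4) := hij
    have h2 : (1 : ℚ) / (4 * ((κ i : ℚ) + 1) ^ 4) = 1 / (4 * ((κ j : ℚ) + 1) ^ 4) := by
      linear_combination -h1
    rw [div_eq_div_iff (by positivity) (by positivity)] at h2
    have h3 : ((κ i : ℚ) + 1) ^ 4 = ((κ j : ℚ) + 1) ^ 4 := by linear_combination -h2 / 4
    have h4 : (κ i + 1) ^ 4 = (κ j + 1) ^ 4 := by exact_mod_cast h3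
    have h5 := Nat.pow_left_injective (by norm_num : 4 ≠ 0) h4
    omega
  have hΘ : ∀ z ∈ N, (fun j i => τ i • z j i) ∈ N := by
    intro z hz
    have h1 := N.add_mem (tN _ (tN z hz)) (tsN _ (tsN z hz))
    rw [tt, ss] at h1
    have h2 : ((fun j => X.t (z j)) + fun j => X.t.symm (z j)) = fun j i => τ i • z j i := by
      funext j i
      change X.t (z j) i + X.t.symm (z j) i = _
      rw [hX, pi_t, pi_t_symm]
      exact formF_tt (κ i) (z j i)
    rwa [h2] at h1
  obtain ⟨j0, i0, hji⟩ : ∃ j i, z j i ≠ 0 := by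
    by_contra hcon
    push Not at hcon
    apply hz0
    funext j i
    exact hcon j i
  set w : Fin 2 → Fin (m + 1) → (Fin 2 → ℚ) × (Fin 2 → ℚ) :=
    fun j i => if i = i0 then z j i else 0 with hw
  have hwN : w ∈ N := proj_mem N τ hτ hΘ z hz i0
  have hwj : ∀ j, w j = Pi.single i0 (z j i0) := by
    intro j
    funext i
    by_cases hi : i = i0
    · rw [hi, Pi.single_eq_same, hw]
      simp
    · rw [Pi.single_eq_of_ne hi, hw]
      simp [hi]
  have hXθ : ∀ x y : (Fin 2 → ℚ) × (Fin 2 → ℚ),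
      X.θ (Pi.single i0 x) (Pi.single i0 y) = (formF (κ i0)).θ x y := by
    intro x y
    change piθ _ _ _ = _
    rw [piθ_single, Pi.single_eq_same]
  -- the relations on `z`
  rw [cable2_t, cable2_ρ] at hzt
  have k0 : X.t (z 1) = X.ρ (z 1) := by
    have := congrFun hzt 0
    simpa using this
  have k1 : z 0 = X.ρ (z 0) := by
    have := congrFun hzt 1
    simpa using this
  have l0 : (formF (κ i0)).t (z 1 i0) = (formF (κ i0)).ρ (z 1 i0) := by
    have := congrFun k0 i0
    rw [hX, pi_t] at this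
    exact this
  have l1 : (formF (κ i0)).ρ (z 0 i0) = z 0 i0 := (congrFun k1 i0).symm
  have m1 : (X.cable 2).θ w w = 0 := hN2 w hwN w hwN
  have m2 : (X.cable 2).θ w ((X.cable 2).t w) = 0 := hN2 w hwN _ (tN w hwN)
  have hXt : X.t (w 1) = Pi.single i0 ((formF (κ i0)).ρ (z 1 i0)) := by
    rw [hX, pi_t]
    funext i
    by_cases hi : i = i0
    · rw [hi, Pi.single_eq_same, hwj, Pi.single_eq_same, l0]
    · rw [Pi.single_eq_of_ne hi, hwj, Pi.single_eq_of_ne hi, map_zero]
  rw [cable2_θ] at m1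
  rw [cable2_t, cable2_θ] at m2
  simp only [Matrix.cons_val_zero, Matrix.cons_val_one, Matrix.cons_val_fin_one, hXt] at m2
  rw [hwj, hwj] at m1 m2
  simp only [hXθ] at m1 m2
  have e3 : (formF (κ i0)).θ (z 0 i0) ((formF (κ i0)).ρ (z 1 i0)) =
      (formF (κ i0)).θ (z 1 i0) (z 0 i0) := by
    conv_lhs => rw [← l1]
    exact (formF (κ i0)).θ_ρ _ _
  obtain ⟨r0, r1⟩ := component_zero (κ i0) (z 0 i0) (z 1 i0) l1 l0.symm
    (by linear_combination m1) (by rw [e3] at m2; linear_combination m2)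
  fin_cases j0
  · exact hji r0
  · exact hji r1

end SIForm

end Pool.Agent.KAQ
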