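import Pool.Agent.KAQ.Klein

/-!
# Cables of odd order
-/

namespace Pool.Agent.KAQ

universe u v w

namespace SIForm

set_option linter.unusedSectionVars false

variable {k : Type u} [Field k] {V : Type v} [AddCommGroup V] [Module k V]
  {W : Type w} [AddCommGroup W] [Module k W] [FiniteDimensional k V] [FiniteDimensional k W]

/-- The symmetrized Seifert form. -/
def Q (S : SIForm k V) : LinearMap.BilinForm k V := S.θ + S.θ.flip

@[simp] lemma Q_apply (S : SIForm k V) (x y : V) : S.Q x y = S.θ x y + S.θ y x := rfl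

lemma Q_symm (S : SIForm k V) (x y : V) : S.Q x y = S.Q y x := by
  rw [Q_apply, Q_apply, add_comm]

lemma Q_refl (S : SIForm k V) : S.Q.IsRefl := by
  intro x y h
  rw [S.Q_symm]
  exact h

lemma Qsingle (S : SIForm k V) (c : ℕ) (z : Fin c → V) (j : Fin c) (y : V) :
    (S.cable c).Q z (Pi.single j y) =
      ∑ i, ((if i ≤ j then S.θ (z i) y else S.θ y (z i)) +
        (if j ≤ i then S.θ y (z i) else S.θ (z i) y)) := by
  rw [Q_apply]
  change S.cableθ c z (Pi.single j y) + S.cableθ c (Pi.single j y) z = _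
  rw [S.cableθ_single, Finset.sum_add_distrib]
  congr 1
  rw [cableθ_apply, Finset.sum_eq_single j]
  · refine Finset.sum_congr rfl fun i _ => ?_
    simp
  · intro b _ hb
    refine Finset.sum_eq_zero fun i _ => ?_
    simp [Pi.single_eq_of_ne hb]
  · simp

lemma Qdiff (S : SIForm k V) (c : ℕ) (z : Fin c → V) (j j' : Fin c) (hj : j'.val = j.val + 1)
    (y : V) :
    (S.cable c).Q z (Pi.single j' y) - (S.cable c).Q z (Pi.single j y) =
      S.lam (z j + z j') y := by
  rw [Qsingle, Qsingle, ← Finset.sum_sub_distrib]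
  have h : ∀ i : Fin c, ((if i ≤ j' then S.θ (z i) y else S.θ y (z i)) +
        (if j' ≤ i then S.θ y (z i) else S.θ (z i) y)) -
        ((if i ≤ j then S.θ (z i) y else S.θ y (z i)) +
        (if j ≤ i then S.θ y (z i) else S.θ (z i) y)) =
      (if i = j then S.lam (z i) y else 0) + (if i = j' then S.lam (z i) y else 0) := by
    intro i
    simp only [Fin.le_def, Fin.ext_iff, hj, lam_apply]
    rcases lt_trichotomy i.val j.val with h1 | h1 | h1
    · rw [if_pos (by omega), if_neg (by omega), if_pos (by omega), if_neg (by omega),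
        if_neg (by omega), if_neg (by omega)]
      ring
    · rw [if_pos (by omega), if_neg (by omega), if_pos (by omega), if_pos (by omega),
        if_pos (by omega), if_neg (by omega)]
      ring
    · rcases Nat.lt_or_ge (j.val + 1) i.val with h2 | h2
      · rw [if_neg (by omega), if_pos (by omega), if_neg (by omega), if_pos (by omega),
          if_neg (by omega), if_neg (by omega)]
        ring
      · rw [if_pos (by omega), if_pos (by omega), if_neg (by omega), if_pos (by omega),
          if_neg (by omega), if_pos (by omega)]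
        ring
  simp only [h]
  rw [Finset.sum_add_distrib, Finset.sum_ite_eq' , Finset.sum_ite_eq']
  simp only [Finset.mem_univ, if_true]
  rw [map_add, LinearMap.add_apply]

/-- Odd indices. -/
def ao (h : ℕ) (i : Fin h) : Fin (2 * h + 1) := ⟨2 * i.val + 1, by omega⟩

/-- Even indices. -/
def co (h : ℕ) (i : Fin h) : Fin (2 * h + 1) := ⟨2 * i.val + 2, by omega⟩

/-- The isotropic part of an odd cable. -/
noncomputable def gmap (k : Type u) [Field k] (V : Type v) [AddCommGroup V] [Module k V] (h : ℕ) :
    (Fin h → V) →ₗ[k] (Fin (2 * h + 1) → V) :=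
  ∑ i, (LinearMap.single k (fun _ => V) (ao h i) - LinearMap.single k (fun _ => V) (co h i)) ∘ₗ
    LinearMap.proj i

lemma gmap_apply (h : ℕ) (b : Fin h → V) :
    gmap k V h b = ∑ i, (Pi.single (ao h i) (b i) - Pi.single (co h i) (b i)) := by
  simp [gmap]

lemma gmap_zero (h : ℕ) (b : Fin h → V) : gmap k V h b 0 = 0 := by
  rw [gmap_apply, Finset.sum_apply]
  refine Finset.sum_eq_zero fun i _ => ?_
  rw [Pi.sub_apply, Pi.single_eq_of_ne, Pi.single_eq_of_ne, sub_zero]
  · intro h0
    have := congrArg Fin.val h0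
    simp [co] at this
  · intro h0
    have := congrArg Fin.val h0
    simp [ao] at this

lemma gmap_ao (h : ℕ) (b : Fin h → V) (j : Fin h) : gmap k V h b (ao h j) = b j := by
  rw [gmap_apply, Finset.sum_apply, Finset.sum_eq_single j]
  · rw [Pi.sub_apply, Pi.single_eq_same, Pi.single_eq_of_ne, sub_zero]
    intro h0
    have := congrArg Fin.val h0
    simp only [ao, co] at this
    omega
  · intro i _ hi
    have hi' : i.val ≠ j.val := fun h => hi (Fin.ext h)
    rw [Pi.sub_apply, Pi.single_eq_of_ne, Pi.single_eq_of_ne, sub_zero]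
    · intro h0
      have := congrArg Fin.val h0
      simp only [ao, co] at this
      omega
    · intro h0
      have := congrArg Fin.val h0
      simp only [ao] at this
      omega
  · simp

lemma gmap_co (h : ℕ) (b : Fin h → V) (j : Fin h) : gmap k V h b (co h j) = - b j := by
  rw [gmap_apply, Finset.sum_apply, Finset.sum_eq_single j]
  · rw [Pi.sub_apply, Pi.single_eq_of_ne, Pi.single_eq_same, zero_sub]
    intro h0
    have := congrArg Fin.val h0
    simp only [ao, co] at this
    omega
  · intro i _ hi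
    have hi' : i.val ≠ j.val := fun h => hi (Fin.ext h)
    rw [Pi.sub_apply, Pi.single_eq_of_ne, Pi.single_eq_of_ne, sub_zero]
    · intro h0
      have := congrArg Fin.val h0
      simp only [co] at this
      omega
    · intro h0
      have := congrArg Fin.val h0
      simp only [ao, co] at this
      omega
  · simp

lemma fin_cases_odd (h : ℕ) (j : Fin (2 * h + 1)) :
    j = 0 ∨ (∃ i, j = ao h i) ∨ (∃ i, j = co h i) := by
  rcases Nat.eq_zero_or_pos j.val with h0 | h0
  · exact Or.inl (Fin.ext h0)
  · right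
    have hj := j.isLt
    rcases Nat.even_or_odd' j.val with ⟨e, he | he⟩
    · right
      refine ⟨⟨e - 1, by omega⟩, Fin.ext ?_⟩
      simp only [co]
      omega
    · left
      refine ⟨⟨e, by omega⟩, Fin.ext ?_⟩
      simp only [ao]
      omega

lemma gmap_inj (h : ℕ) : Function.Injective (gmap k V h) := by
  intro b b' hb
  funext i
  have := congrFun hb (ao h i)
  rwa [gmap_ao, gmap_ao] at this

/-- The vectors orthogonal to the isotropic part. -/
def Jsub (k : Type u) [Field k] (V : Type v) [AddCommGroup V] [Module k V] (h : ℕ) :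
    Submodule k (Fin (2 * h + 1) → V) where
  carrier := {z | ∀ i, z (ao h i) + z (co h i) = 0}
  add_mem' {x y} hx hy i := by
    have h1 := hx i
    have h2 := hy i
    simp only [Pi.add_apply]
    rw [add_add_add_comm, h1, h2, add_zero]
  zero_mem' i := by simp
  smul_mem' c x hx i := by
    have h1 := hx i
    simp only [Pi.smul_apply]
    rw [← smul_add, h1, smul_zero]

lemma mem_Jsub (h : ℕ) (z : Fin (2 * h + 1) → V) :
    z ∈ Jsub k V h ↔ ∀ i, z (ao h i) + z (co h i) = 0 := Iff.rfl

lemma eq_gmap (h : ℕ) (z : Fin (2 * h + 1) → V) (hz : z ∈ Jsub k V h) (h0 : z 0 = 0) :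
    z = gmap k V h (fun i => z (ao h i)) := by
  funext j
  rcases fin_cases_odd h j with rfl | ⟨i, rfl⟩ | ⟨i, rfl⟩
  · rw [gmap_zero, h0]
  · rw [gmap_ao]
  · rw [gmap_co, eq_neg_iff_add_eq_zero, add_comm]
    exact hz i

lemma Q_gmap (S : SIForm k V) (h : ℕ) (z : Fin (2 * h + 1) → V) (b : Fin h → V) :
    (S.cable (2 * h + 1)).Q z (gmap k V h b) =
      - ∑ i, S.lam (z (ao h i) + z (co h i)) (b i) := by
  rw [gmap_apply, map_sum, ← Finset.sum_neg_distrib]
  refine Finset.sum_congr rfl fun i _ => ?_
  rw [map_sub, ← S.Qdiff (2 * h + 1) z (ao h i) (co h i) rfl (b i)]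
  ring

lemma orth_gmap (S : SIForm k V) (h : ℕ) :
    (S.cable (2 * h + 1)).Q.orthogonal (LinearMap.range (gmap k V h)) = Jsub k V h := by
  ext z
  constructor
  · intro hz i
    refine S.unimod _ fun y => ?_
    have h1 := hz (gmap k V h (Pi.single i y)) ⟨_, rfl⟩
    have h2 : (S.cable (2 * h + 1)).Q (gmap k V h (Pi.single i y)) z = 0 := h1
    rw [Q_symm, Q_gmap, Finset.sum_eq_single i] at h2
    · rw [Pi.single_eq_same, neg_eq_zero, lam_apply, sub_eq_zero] at h2
      exact h2
    · intro j _ hj
      rw [Pi.single_eq_of_ne hj, map_zero]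
    · simp
  · rintro hz _ ⟨b, rfl⟩
    change (S.cable (2 * h + 1)).Q (gmap k V h b) z = 0
    rw [Q_symm, Q_gmap, neg_eq_zero]
    refine Finset.sum_eq_zero fun i _ => ?_
    rw [hz i, map_zero, LinearMap.zero_apply]

lemma single_mem_Jsub (h : ℕ) (x : V) : (Pi.single 0 x : Fin (2 * h + 1) → V) ∈ Jsub k V h := by
  intro i
  rw [Pi.single_eq_of_ne, Pi.single_eq_of_ne, add_zero]
  · intro h0
    have := congrArg Fin.val h0
    simp [co] at this
  · intro h0
    have := congrArg Fin.val h0
    simp [ao] at this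

lemma Q_single_zero (S : SIForm k V) (c : ℕ) (j : Fin c) (x y : V) :
    (S.cable c).Q (Pi.single j x) (Pi.single j y) = S.Q x y := by
  rw [Qsingle, Finset.sum_eq_single j]
  · simp
  · intro i _ hi
    rw [Pi.single_eq_of_ne hi]
    simp
  · simp

/-- On `Jsub` the symmetrized form only depends on the coordinates of index zero. -/
lemma Q_Jsub (S : SIForm k V) (h : ℕ) (z z' : Fin (2 * h + 1) → V) (hz : z ∈ Jsub k V h)
    (hz' : z' ∈ Jsub k V h) : (S.cable (2 * h + 1)).Q z z' = S.Q (z 0) (z' 0) := by
  have e : ∀ w ∈ Jsub k V h, ∃ b, w = Pi.single 0 (w 0) + gmap k V h b := by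
    intro w hw
    have h1 := (Jsub k V h).sub_mem hw (single_mem_Jsub h (w 0))
    have h2 := eq_gmap h _ h1 (by simp)
    exact ⟨_, by rw [← h2]; abel⟩
  obtain ⟨b, hb⟩ := e z hz
  obtain ⟨b', hb'⟩ := e z' hz'
  have g0 : ∀ (w : Fin (2 * h + 1) → V) (_ : w ∈ Jsub k V h) (b : Fin h → V),
      (S.cable (2 * h + 1)).Q w (gmap k V h b) = 0 := by
    intro w hw b
    rw [Q_gmap, neg_eq_zero]
    refine Finset.sum_eq_zero fun i _ => ?_
    rw [hw i, map_zero, LinearMap.zero_apply]
  conv_lhs => rw [hb', map_add, g0 z hz, add_zero, hb, map_add, LinearMap.add_apply, Q_single_zero,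
    Q_symm _ (gmap k V h b), g0 _ (single_mem_Jsub h _), add_zero]

lemma Qcable_nondeg (S : SIForm k V) (hQ : ∀ x, (∀ y, S.Q x y = 0) → x = 0) (h : ℕ) :
    (S.cable (2 * h + 1)).Q.Nondegenerate := by
  have key : ∀ z : Fin (2 * h + 1) → V, (∀ w, (S.cable (2 * h + 1)).Q z w = 0) → z = 0 := by
    intro z hz
    have h1 : ∀ j j' : Fin (2 * h + 1), j'.val = j.val + 1 → z j + z j' = 0 := by
      intro j j' hj
      refine S.unimod _ fun y => ?_
      have h2 := S.Qdiff (2 * h + 1) z j j' hj y
      rw [hz, hz, sub_zero, lam_apply, eq_comm, sub_eq_zero] at h2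
      exact h2
    have hJ : z ∈ Jsub k V h := fun i => h1 _ _ rfl
    have h0 : z 0 = 0 := by
      refine hQ _ fun y => ?_
      have h3 := S.Q_Jsub h z (Pi.single 0 y) hJ (single_mem_Jsub h y)
      rw [hz, Pi.single_eq_same] at h3
      exact h3.symm
    funext j
    obtain ⟨j, hj⟩ := j
    induction j with
    | zero => exact h0
    | succ n ih =>
      have h4 := h1 ⟨n, by omega⟩ ⟨n + 1, hj⟩ rfl
      rw [ih (by omega)] at h4
      simpa using h4
  refine ⟨key, ?_⟩
  intro z hz
  refine key z fun w => ?_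
  rw [Q_symm]
  exact hz w

end SIForm

end Pool.Agent.KAQ
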