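import Pool.Agent.KAQ.Odd

/-!
# Cables of odd order: descent of metabolizers
-/

namespace Pool.Agent.KAQ

universe u v w

namespace SIForm

set_option linter.unusedSectionVars false

variable {k : Type u} [Field k] {V : Type v} [AddCommGroup V] [Module k V]
  {W : Type w} [AddCommGroup W] [Module k W] [FiniteDimensional k V] [FiniteDimensional k W]

lemma cableθ_single_left (S : SIForm k V) (c : ℕ) (x : Fin c → V) (j : Fin c) (y : V) :
    S.cableθ c (Pi.single j y) x = ∑ i, if j ≤ i then S.θ y (x i) else S.θ (x i) y := by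
  rw [cableθ_apply, Finset.sum_eq_single j]
  · refine Finset.sum_congr rfl fun i _ => ?_
    simp
  · intro b _ hb
    refine Finset.sum_eq_zero fun i _ => ?_
    simp [Pi.single_eq_of_ne hb]
  · simp

lemma cable_t (S : SIForm k V) (n : ℕ) (x : Fin (n + 1) → V) :
    (S.cable (n + 1)).t x = Fin.cons (S.t (x (Fin.last n))) (fun i : Fin n => x i.castSucc) := by
  refine (S.cable (n + 1)).t_unique fun y => ?_
  have h : S.cableθ (n + 1) (Fin.cons (S.t (x (Fin.last n))) (fun i : Fin n => x i.castSucc)) =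
      (S.cableθ (n + 1)).flip x := by
    refine LinearMap.pi_ext fun j b => ?_
    rw [LinearMap.flip_apply, cableθ_single, cableθ_single_left, Fin.sum_univ_succ,
      Fin.sum_univ_castSucc, add_comm]
    congr 1
    · refine Finset.sum_congr rfl fun i _ => ?_
      simp only [Fin.cons_succ, Fin.le_def, Fin.val_succ, Fin.val_castSucc]
      rcases Nat.lt_or_ge i.val j.val with h1 | h1
      · rw [if_pos (by omega), if_neg (by omega)]
      · rw [if_neg (by omega), if_pos (by omega)]
    · rw [if_pos (Fin.zero_le j), if_pos (Fin.le_last j), Fin.cons_zero, S.t_spec]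
  exact LinearMap.congr_fun h y

lemma cable_t_iter (S : SIForm k V) (n : ℕ) (z : Fin (n + 1) → V) (j : ℕ) (hj : j ≤ n + 1)
    (i : Fin (n + 1)) :
    ((S.cable (n + 1)).t^[j] z) i =
      if h : i.val < j then S.t (z ⟨i.val + (n + 1) - j, by omega⟩)
        else z ⟨i.val - j, by omega⟩ := by
  induction j generalizing i with
  | zero => simp
  | succ j ih =>
    rw [Function.iterate_succ_apply', cable_t]
    have ih' := fun i => ih (by omega) i
    refine Fin.cases ?_ (fun i' => ?_) i
    · rw [Fin.cons_zero, ih', dif_neg (by simp only [Fin.val_last]; omega), dif_pos (by simp)]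
      congr 2
      apply Fin.ext
      simp
    · rw [Fin.cons_succ, ih']
      by_cases h1 : i'.val < j
      · rw [dif_pos (by simpa using h1), dif_pos (by simpa using h1)]
        congr 2
        apply Fin.ext
        simp only [Fin.val_castSucc, Fin.val_succ]
        omega
      · rw [dif_neg (by simpa using h1), dif_neg (by simpa using h1)]
        congr 1
        apply Fin.ext
        simp

lemma cable_t_pow (S : SIForm k V) (n : ℕ) (z : Fin (n + 1) → V) :
    ((S.cable (n + 1)).t^[n + 1] z) = fun i => S.t (z i) := by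
  funext i
  rw [cable_t_iter S n z (n + 1) le_rfl i, dif_pos i.isLt]
  congr 2
  apply Fin.ext
  simp

/-- Odd cables: metabolizers descend. -/
lemma Metabolic.of_odd_cable {S : SIForm k V} (hQ : ∀ x, (∀ y, S.Q x y = 0) → x = 0) (h : ℕ)
    (hm : (S.cable (2 * h + 1)).Metabolic) : S.Metabolic := by
  obtain ⟨N, hN1, hN2, hN3⟩ := hm
  have hT : ∀ x ∈ N, (S.cable (2 * h + 1)).t x ∈ N := fun x hx =>
    (S.cable (2 * h + 1)).t_mem_of_half N hN2 hN3 hx
  have hTi : ∀ j : ℕ, ∀ x ∈ N, (S.cable (2 * h + 1)).t^[j] x ∈ N := by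
    intro j
    induction j with
    | zero => intro x hx; exact hx
    | succ j ih =>
      intro x hx
      rw [Function.iterate_succ_apply']
      exact hT _ (ih x hx)
  have hTd : ∀ x ∈ N, (fun i => S.t (x i)) ∈ N := by
    intro x hx
    rw [← cable_t_pow]
    exact hTi _ x hx
  have hR : ∀ x ∈ N, (S.cable (2 * h + 1)).t ((S.cable (2 * h + 1)).ρ x) ∈ N := fun x hx =>
    hT _ (hN1 x hx)
  have hR0 : ∀ x : Fin (2 * h + 1) → V,
      ((S.cable (2 * h + 1)).t ((S.cable (2 * h + 1)).ρ x)) 0 = S.t (S.ρ (x 0)) := by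
    intro x
    rw [cable_t, Fin.cons_zero]
    change S.t (S.ρ (x (Fin.last (2 * h)).rev)) = _
    rw [Fin.rev_last]
  have hRs : ∀ (x : Fin (2 * h + 1) → V) (i : Fin (2 * h)),
      ((S.cable (2 * h + 1)).t ((S.cable (2 * h + 1)).ρ x)) i.succ =
        S.ρ (x i.castSucc.rev) := by
    intro x i
    rw [cable_t, Fin.cons_succ]
    rfl
  set J := Jsub k V h with hJ
  set I := LinearMap.range (gmap k V h) with hI
  have hRJ : ∀ x ∈ J, (S.cable (2 * h + 1)).t ((S.cable (2 * h + 1)).ρ x) ∈ J := by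
    intro x hx i
    have e1 : ao h i = (⟨2 * i.val, by omega⟩ : Fin (2 * h)).succ := Fin.ext (by simp [ao])
    have e2 : co h i = (⟨2 * i.val + 1, by omega⟩ : Fin (2 * h)).succ := Fin.ext (by simp [co])
    rw [e1, e2, hRs, hRs, ← map_add]
    have e3 : (⟨2 * i.val, by omega⟩ : Fin (2 * h)).castSucc.rev = co h i.rev := by
      apply Fin.ext
      rw [Fin.val_rev]
      simp only [Fin.val_castSucc, co, Fin.val_rev]
      omega
    have e4 : (⟨2 * i.val + 1, by omega⟩ : Fin (2 * h)).castSucc.rev = ao h i.rev := by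
      apply Fin.ext
      rw [Fin.val_rev]
      simp only [Fin.val_castSucc, ao, Fin.val_rev]
      omega
    rw [e3, e4, add_comm, hx i.rev, map_zero]
  have hTJ : ∀ x ∈ J, (fun i => S.t (x i)) ∈ J := by
    intro x hx i
    change S.t _ + S.t _ = 0
    rw [← map_add, hx i, map_zero]
  have hnd := S.Qcable_nondeg hQ h
  have hNo : (S.cable (2 * h + 1)).Q.orthogonal N = N := by
    symm
    apply Submodule.eq_of_le_of_finrank_eq
    · intro x hx m hm
      change (S.cable (2 * h + 1)).Q m x = 0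
      rw [Q_apply, hN2 m hm x hx, hN2 x hx m hm, add_zero]
    · have := LinearMap.BilinForm.finrank_orthogonal hnd N
      omega
  have hIo : (S.cable (2 * h + 1)).Q.orthogonal I = J := S.orth_gmap h
  let p : (Fin (2 * h + 1) → V) →ₗ[k] V := LinearMap.proj 0
  have hp : ∀ x, p x = x 0 := fun x => rfl
  set M : Submodule k V := (N ⊓ J).map p with hM
  have tM : ∀ x ∈ M, S.t x ∈ M := by
    rintro _ ⟨z, hz, rfl⟩
    exact ⟨_, ⟨hTd z hz.1, hTJ z hz.2⟩, rfl⟩
  have ρM : ∀ x ∈ M, S.ρ x ∈ M := by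
    intro x hx
    have h1 : S.t (S.ρ x) ∈ M := by
      obtain ⟨z, hz, rfl⟩ := hx
      refine ⟨_, ⟨hR z hz.1, hRJ z hz.2⟩, ?_⟩
      rw [hp, hp, hR0]
    exact mem_of_image_mem S.t.toLinearMap S.t.injective M tM h1
  have QM : ∀ x ∈ M, ∀ y ∈ M, S.Q x y = 0 := by
    rintro _ ⟨z, hz, rfl⟩ _ ⟨z', hz', rfl⟩
    rw [hp, hp, ← S.Q_Jsub h z z' hz.2 hz'.2, Q_apply, hN2 _ hz.1 _ hz'.1, hN2 _ hz'.1 _ hz.1,
      add_zero]
  have θM : ∀ x ∈ M, ∀ y ∈ M, S.θ x y = 0 := by
    intro x hx y hy
    obtain ⟨x1, hx1, rfl⟩ := exists_of_mem (LinearMap.id + S.t.toLinearMap)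
      (by
        rw [← LinearMap.ker_eq_bot, LinearMap.ker_eq_bot']
        intro z hz
        refine hQ z fun y => ?_
        have h1 : z + S.t z = 0 := hz
        rw [Q_apply, ← S.t_spec z y, ← LinearMap.add_apply, ← map_add, h1, map_zero,
          LinearMap.zero_apply]) M
      (fun z hz => M.add_mem hz (tM z hz)) hx
    change S.θ (x1 + S.t x1) y = 0
    rw [map_add, LinearMap.add_apply, S.t_spec]
    exact QM x1 hx1 y hy
  refine ⟨M, ρM, θM, ?_⟩
  have d1 := dim_red (S.cable (2 * h + 1)).Q hnd N I J hNo hIo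
  have d2 := finrank_map_add p (N ⊓ J)
  rw [← hM] at d2
  have d3 : N ⊓ J ⊓ LinearMap.ker p = N ⊓ I := by
    ext z
    constructor
    · rintro ⟨⟨h1, h2⟩, h3⟩
      have h4 : z 0 = 0 := h3
      exact ⟨h1, ⟨_, (eq_gmap h z h2 h4).symm⟩⟩
    · rintro ⟨h1, ⟨b, rfl⟩⟩
      refine ⟨⟨h1, ?_⟩, ?_⟩
      · intro i
        rw [gmap_ao, gmap_co, add_neg_cancel]
      · change gmap k V h b 0 = 0
        exact gmap_zero h b
  rw [d3] at d2
  have d4 : Module.finrank k I = h * Module.finrank k V := by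
    rw [hI, LinearMap.finrank_range_of_inj (gmap_inj h), finrank_fun]
  have d5 : Module.finrank k (Fin (2 * h + 1) → V) = (2 * h + 1) * Module.finrank k V :=
    finrank_fun _
  have d6 : (2 * h + 1) * Module.finrank k V = 2 * (h * Module.finrank k V) +
      Module.finrank k V := by ring
  rw [d5] at hN3 d1
  rw [d6] at hN3 d1
  omega

lemma cable_two_Q (S : SIForm k V) (x : Fin 2 → V) (hx : ∀ y, (S.cable 2).Q x y = 0) :
    x = 0 := by
  have h1 : x + (S.cable 2).t x = 0 := by
    refine (S.cable 2).nonsing _ fun y => ?_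
    rw [map_add, LinearMap.add_apply, t_spec]
    exact hx y
  rw [cable2_t] at h1
  have h2 : x 0 + S.t (x 1) = 0 := congrFun h1 0
  have h3 : x 1 + x 0 = 0 := congrFun h1 1
  have h4 : x 1 = 0 := by
    apply S.one_sub_t_inj
    have h5 : x 1 = - x 0 := eq_neg_of_add_eq_zero_left h3
    have h6 : S.t (x 1) = - x 0 := eq_neg_of_add_eq_zero_right h2
    rw [h6]
    rw [h5, sub_self]
  have h7 : x 0 = 0 := by
    rw [h4, zero_add] at h3
    exact h3
  funext i
  fin_cases i
  · exact h7
  · exact h4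

/-- If `4` does not divide `c` and the `c`-cable is metabolic, then the form is Witt equivalent to
one with a Klein structure. -/
theorem kleinClass_of_cable {S : SIForm k V} (c : ℕ) (hc : ¬ 4 ∣ c)
    (h : (S.cable c).Metabolic) : S.KleinClass := by
  apply kleinClass_of_cable_two
  have key : ∀ m, ¬ 2 ∣ m → (S.cable (2 * m)).Metabolic → (S.cable 2).Metabolic := by
    intro m hm hmet
    obtain ⟨r, rfl⟩ : ∃ r, m = 2 * r + 1 := ⟨m / 2, by omega⟩
    exact Metabolic.of_odd_cable (S.cable_two_Q) r (of_cable_mul 2 (2 * r + 1) hmet)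
  by_cases h2 : 2 ∣ c
  · obtain ⟨m, rfl⟩ := h2
    refine key m ?_ h
    rintro ⟨e, rfl⟩
    exact hc ⟨e, by ring⟩
  · refine key c h2 ?_
    rw [mul_comm]
    exact cable_mono c 2 h

/-- Klein classes have metabolic cables of every even order. -/
theorem KleinClass.cable_even {S : SIForm k V} (h : S.KleinClass) (c : ℕ) (hc : 2 ∣ c) :
    (S.cable c).Metabolic := by
  obtain ⟨m, rfl⟩ := hc
  exact cable_mono 2 m h.cable_two

end SIForm

end Pool.Agent.KAQ
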