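import Pool.Agent.KAQ.Odd2
import Pool.Agent.KAQ.Family

/-!
# Metabolizers of sums and of cables of sums
-/

namespace Pool.Agent.KAQ

universe u v w

namespace SIForm

set_option linter.unusedSectionVars false

variable {k : Type u} [Field k] {V : Type v} [AddCommGroup V] [Module k V]
  {W : Type w} [AddCommGroup W] [Module k W] [FiniteDimensional k V] [FiniteDimensional k W]

lemma PlainMetabolic.of_equiv {S : SIForm k V} {S' : SIForm k W} (e : V ≃ₗ[k] W)
    (hθ : ∀ x y, S'.θ (e x) (e y) = S.θ x y) (h : S.PlainMetabolic) : S'.PlainMetabolic := by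
  obtain ⟨M, h2, h3⟩ := h
  refine ⟨M.map (e : V →ₗ[k] W), ?_, ?_⟩
  · rintro _ ⟨x, hx, rfl⟩ _ ⟨y, hy, rfl⟩
    exact (hθ x y).trans (h2 x hx y hy)
  · rw [LinearEquiv.finrank_map_eq, h3, LinearEquiv.finrank_eq e]

lemma graph_finrank (φ : W →ₗ[k] V) (hd : Module.finrank k V = Module.finrank k W) :
    2 * Module.finrank k (LinearMap.range (φ.prod LinearMap.id)) =
      Module.finrank k (V × W) := by
  have hinj : Function.Injective (φ.prod LinearMap.id) := by
    intro x y h
    exact congrArg Prod.snd h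
  have h1 : Module.finrank k (V × W) = Module.finrank k V + Module.finrank k W :=
    Module.finrank_prod
  rw [LinearMap.finrank_range_of_inj hinj, h1, hd]
  ring

lemma plain_sub_of_isom {A : SIForm k V} {B : SIForm k W} (φ : W →ₗ[k] V)
    (hd : Module.finrank k V = Module.finrank k W)
    (h : ∀ x y, A.θ (φ x) (φ y) = B.θ x y) : (A.sub B).PlainMetabolic := by
  refine ⟨LinearMap.range (φ.prod LinearMap.id), ?_, graph_finrank φ hd⟩
  rintro _ ⟨x, rfl⟩ _ ⟨y, rfl⟩
  change A.θ (φ x) (φ y) - B.θ x y = 0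
  rw [h, sub_self]

lemma sub_of_isom {A : SIForm k V} {B : SIForm k W} (φ : W →ₗ[k] V)
    (hd : Module.finrank k V = Module.finrank k W)
    (h : ∀ x y, A.θ (φ x) (φ y) = B.θ x y) (hρ : ∀ x, A.ρ (φ x) = φ (B.ρ x)) :
    (A.sub B).Metabolic := by
  refine ⟨LinearMap.range (φ.prod LinearMap.id), ?_, ?_, graph_finrank φ hd⟩
  · rintro _ ⟨x, rfl⟩
    exact ⟨B.ρ x, Prod.ext (hρ x).symm rfl⟩
  · rintro _ ⟨x, rfl⟩ _ ⟨y, rfl⟩
    change A.θ (φ x) (φ y) - B.θ x y = 0
    rw [h, sub_self]

lemma split_θ (S : SIForm k V) (S' : SIForm k W) (c : ℕ) (x y : Fin c → V × W) :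
    ((S.cable c).sub (S'.cable c)).θ (splitFun (k := k) c x) (splitFun (k := k) c y) =
      ((S.sub S').cable c).θ x y := by
  change S.cableθ c _ _ - S'.cableθ c _ _ = (S.sub S').cableθ c x y
  rw [cableθ_apply, cableθ_apply, cableθ_apply, ← Finset.sum_sub_distrib]
  refine Finset.sum_congr rfl fun i _ => ?_
  rw [← Finset.sum_sub_distrib]
  refine Finset.sum_congr rfl fun j _ => ?_
  split_ifs
  · rfl
  · rfl

lemma of_cable_sub {S : SIForm k V} {S' : SIForm k W} (c : ℕ)
    (h : ((S.cable c).sub (S'.cable c)).Metabolic) : ((S.sub S').cable c).Metabolic := by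
  refine h.of_equiv (splitFun c).symm ?_ ?_
  · intro x y
    rw [← split_θ, LinearEquiv.apply_symm_apply, LinearEquiv.apply_symm_apply]
  · intro x
    rfl

lemma plain_of_cable_sub {S : SIForm k V} {S' : SIForm k W} (c : ℕ)
    (h : ((S.cable c).sub (S'.cable c)).PlainMetabolic) :
    ((S.sub S').cable c).PlainMetabolic := by
  refine h.of_equiv (splitFun c).symm ?_
  intro x y
  rw [← split_θ, LinearEquiv.apply_symm_apply, LinearEquiv.apply_symm_apply]

section pi

variable {ι : Type} [Fintype ι]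

/-- The inclusion of a product of subspaces. -/
def inclPi (M : ι → Submodule k V) : (∀ i, M i) →ₗ[k] (ι → V) :=
  LinearMap.pi fun i => (M i).subtype ∘ₗ LinearMap.proj i

lemma inclPi_inj (M : ι → Submodule k V) : Function.Injective (inclPi M) := by
  intro x y h
  funext i
  exact Subtype.ext (congrFun h i)

lemma inclPi_finrank (M : ι → Submodule k V)
    (h : ∀ i, 2 * Module.finrank k (M i) = Module.finrank k V) :
    2 * Module.finrank k (LinearMap.range (inclPi M)) = Module.finrank k (ι → V) := by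
  rw [LinearMap.finrank_range_of_inj (inclPi_inj M), Module.finrank_pi_fintype,
    Module.finrank_pi_fintype, Finset.mul_sum]
  exact Finset.sum_congr rfl fun i _ => h i

lemma pi_metabolic {S : ι → SIForm k V} (h : ∀ i, (S i).Metabolic) :
    (SIForm.pi S).Metabolic := by
  choose M h1 h2 h3 using h
  refine ⟨LinearMap.range (inclPi M), ?_, ?_, inclPi_finrank M h3⟩
  · rintro _ ⟨x, rfl⟩
    exact ⟨fun i => ⟨(S i).ρ (x i), h1 i _ (x i).2⟩, rfl⟩
  · rintro _ ⟨x, rfl⟩ _ ⟨y, rfl⟩
    change piθ S _ _ = 0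
    rw [piθ_apply]
    exact Finset.sum_eq_zero fun i _ => h2 i _ (x i).2 _ (y i).2

lemma pi_plain {S : ι → SIForm k V} (h : ∀ i, (S i).PlainMetabolic) :
    (SIForm.pi S).PlainMetabolic := by
  choose M h2 h3 using h
  refine ⟨LinearMap.range (inclPi M), ?_, inclPi_finrank M h3⟩
  rintro _ ⟨x, rfl⟩ _ ⟨y, rfl⟩
  change piθ S _ _ = 0
  rw [piθ_apply]
  exact Finset.sum_eq_zero fun i _ => h2 i _ (x i).2 _ (y i).2

/-- Exchange of the arguments. -/
def swapFun (k : Type u) [Field k] (V : Type v) [AddCommGroup V] [Module k V] (ι : Type) (c : ℕ) :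
    (ι → Fin c → V) ≃ₗ[k] (Fin c → ι → V) where
  toFun x := fun j i => x i j
  invFun x := fun i j => x j i
  left_inv _ := rfl
  right_inv _ := rfl
  map_add' _ _ := rfl
  map_smul' _ _ := rfl

lemma swap_θ (S : ι → SIForm k V) (c : ℕ) (x y : ι → Fin c → V) :
    ((SIForm.pi S).cable c).θ (swapFun k V ι c x) (swapFun k V ι c y) =
      (SIForm.pi fun i => (S i).cable c).θ x y := by
  change (SIForm.pi S).cableθ c _ _ = piθ _ x y
  rw [cableθ_apply, piθ_apply]
  have h : ∀ a b : Fin c, (if a ≤ b then (SIForm.pi S).θ (swapFun k V ι c x a)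
      (swapFun k V ι c y b) else (SIForm.pi S).θ (swapFun k V ι c y b) (swapFun k V ι c x a)) =
      ∑ i, if a ≤ b then (S i).θ (x i a) (y i b) else (S i).θ (y i b) (x i a) := by
    intro a b
    split_ifs
    · rfl
    · rfl
  simp only [h]
  rw [Finset.sum_congr rfl fun a _ => Finset.sum_comm, Finset.sum_comm]
  rfl

lemma pi_cable_metabolic {S : ι → SIForm k V} (c : ℕ) (h : ∀ i, ((S i).cable c).Metabolic) :
    ((SIForm.pi S).cable c).Metabolic := by
  refine (pi_metabolic h).of_equiv (swapFun k V ι c) (swap_θ S c) ?_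
  intro x
  rfl

lemma pi_cable_plain {S : ι → SIForm k V} (c : ℕ) (h : ∀ i, ((S i).cable c).PlainMetabolic) :
    ((SIForm.pi S).cable c).PlainMetabolic :=
  (pi_plain h).of_equiv (swapFun k V ι c) (swap_θ S c)

end pi

end SIForm

end Pool.Agent.KAQ
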